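import Mathlib

set_option autoImplicit false

open Complex

/-! # A discrete Caccioppoli inequality

`Hv` lives on the vertices `(x, y)` of the square lattice, `Hf` on its faces; the face `(x + 1, y + 1)`
has the corners `(x, y), .., (x + 1, y + 1)`. If the dual increment of every edge is close to `I` times
its primal increment (relatively), the energy in a box is bounded by the square of the oscillation. -/

namespace Pool.Agent.H79.ZF

/-- dual increment of the horizontal edge from `u` -/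
def ah (Hf : ℤ × ℤ → ℂ) (u : ℤ × ℤ) : ℂ := Hf (u.1 + 1, u.2 + 1) - Hf (u.1 + 1, u.2)

/-- dual increment of the vertical edge from `u` -/
def av (Hf : ℤ × ℤ → ℂ) (u : ℤ × ℤ) : ℂ := Hf (u.1, u.2 + 1) - Hf (u.1 + 1, u.2 + 1)

/-- primal increments -/
def bh (Hv : ℤ × ℤ → ℂ) (u : ℤ × ℤ) : ℂ := Hv (u.1 + 1, u.2) - Hv u
def bv (Hv : ℤ × ℤ → ℂ) (u : ℤ × ℤ) : ℂ := Hv (u.1, u.2 + 1) - Hv u

/-- relative Cauchy-Riemann relation of an edge with dual increment `a` and primal increment `b` -/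
def Rl (ε κ : ℝ) (a b : ℂ) : Prop := ‖a - I * b‖ ≤ ε * ‖a + I * b‖ + κ

lemma im_conj_mul (a b : ℂ) : ((starRingEnd ℂ) b * a).im =
    (‖a + I * b‖ ^ 2 - ‖a - I * b‖ ^ 2) / 4 := by
  rw [← Complex.normSq_eq_norm_sq, ← Complex.normSq_eq_norm_sq]
  simp only [Complex.normSq_apply, Complex.mul_im, Complex.conj_re, Complex.conj_im, Complex.add_re,
    Complex.add_im, Complex.sub_re, Complex.sub_im, Complex.mul_re, Complex.I_re, Complex.I_im]
  ring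

lemma Rl.half {ε κ : ℝ} {a b : ℂ} (h : Rl ε κ a b) (hε : ε ≤ 1 / 2) :
    ‖a - I * b‖ ≤ 1 / 2 * ‖a + I * b‖ + κ :=
  h.trans (add_le_add (mul_le_mul_of_nonneg_right hε (norm_nonneg _)) le_rfl)

lemma Rl.norm_le {ε κ : ℝ} {a b : ℂ} (h : Rl ε κ a b) (hε : ε ≤ 1 / 2) :
    ‖a‖ ≤ 3 / 4 * ‖a + I * b‖ + κ / 2 := by
  have h1 : a = ((a + I * b) + (a - I * b)) / 2 := by ring
  have h2 : ‖a‖ ≤ (‖a + I * b‖ + ‖a - I * b‖) / 2 := by
    calc ‖a‖ = ‖((a + I * b) + (a - I * b)) / 2‖ := by rw [← h1]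
      _ = ‖(a + I * b) + (a - I * b)‖ / 2 := by rw [norm_div]; norm_num
      _ ≤ _ := by gcongr; exact norm_add_le _ _
  have h3 := h.half hε
  linarith

/-- the inequality of one edge -/
lemma edge_ineq {h1 h2 f : ℂ} {a b M δ ε κ : ℝ} (ha : 0 ≤ a) (hb : 0 ≤ b) (ha1 : a ≤ 1)
    (hb1 : b ≤ 1) (hab : |b - a| ≤ δ) (hM1 : ‖h1‖ ≤ M) (hM2 : ‖h2‖ ≤ M) (hκ : 0 ≤ κ)
    (hε : ε ≤ 1 / 2) (hr : Rl ε κ f (h2 - h1)) :
    (a ^ 2 + b ^ 2) / 2 * (‖f + I * (h2 - h1)‖ ^ 2 / 8) ≤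
      ((((b ^ 2 : ℝ) : ℂ) * (starRingEnd ℂ) h2 - ((a ^ 2 : ℝ) : ℂ) * (starRingEnd ℂ) h1) * f).im +
        (19 * (δ * M) ^ 2 + κ ^ 2) := by
  set P := ‖f + I * (h2 - h1)‖ with hP
  have hP0 : 0 ≤ P := norm_nonneg _
  have hM0 : 0 ≤ M := (norm_nonneg _).trans hM1
  have hδ : 0 ≤ δ := (abs_nonneg _).trans hab
  have e1 : (((b ^ 2 : ℝ) : ℂ) * (starRingEnd ℂ) h2 - ((a ^ 2 : ℝ) : ℂ) * (starRingEnd ℂ) h1) * f =
      (((a ^ 2 + b ^ 2) / 2 : ℝ) : ℂ) * ((starRingEnd ℂ) (h2 - h1) * f) +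
        (((b ^ 2 - a ^ 2) / 2 : ℝ) : ℂ) * (((starRingEnd ℂ) h1 + (starRingEnd ℂ) h2) * f) := by
    rw [map_sub]
    push_cast
    ring
  have hA0 : 0 ≤ (a ^ 2 + b ^ 2) / 2 := by positivity
  have hA1 : (a ^ 2 + b ^ 2) / 2 ≤ 1 := by nlinarith
  have k1 : 5 / 32 * P ^ 2 - 3 / 4 * κ ^ 2 ≤ ((starRingEnd ℂ) (h2 - h1) * f).im := by
    rw [im_conj_mul]
    have h3 : ‖f - I * (h2 - h1)‖ ≤ 1 / 2 * P + κ := hr.half hε
    have h4 : ‖f - I * (h2 - h1)‖ ^ 2 ≤ (1 / 2 * P + κ) ^ 2 :=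
      pow_le_pow_left₀ (norm_nonneg _) h3 2
    rw [← hP]
    nlinarith [sq_nonneg (P - 4 * κ)]
  have k2 : ‖f‖ ≤ 3 / 4 * P + κ / 2 := hr.norm_le hε
  have k3 : |(((starRingEnd ℂ) h1 + (starRingEnd ℂ) h2) * f).im| ≤ 2 * M * (3 / 4 * P + κ / 2) := by
    refine (Complex.abs_im_le_norm _).trans ?_
    rw [norm_mul]
    have : ‖(starRingEnd ℂ) h1 + (starRingEnd ℂ) h2‖ ≤ 2 * M := by
      refine (norm_add_le _ _).trans ?_
      rw [RCLike.norm_conj, RCLike.norm_conj]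
      linarith
    exact mul_le_mul this k2 (norm_nonneg _) (by positivity)
  have k4 : |(b ^ 2 - a ^ 2) / 2| ≤ δ * (a + b) / 2 := by
    rw [show (b ^ 2 - a ^ 2) / 2 = (b - a) * ((a + b) / 2) by ring, abs_mul,
      abs_of_nonneg (show 0 ≤ (a + b) / 2 by positivity)]
    calc |b - a| * ((a + b) / 2) ≤ δ * ((a + b) / 2) :=
          mul_le_mul_of_nonneg_right hab (by positivity)
      _ = _ := by ring
  have k5 : -(δ * (a + b) / 2 * (2 * M * (3 / 4 * P + κ / 2))) ≤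
      (b ^ 2 - a ^ 2) / 2 * (((starRingEnd ℂ) h1 + (starRingEnd ℂ) h2) * f).im := by
    have := mul_le_mul k4 k3 (abs_nonneg _) (by positivity)
    rw [← abs_mul] at this
    linarith [neg_abs_le ((b ^ 2 - a ^ 2) / 2 * (((starRingEnd ℂ) h1 + (starRingEnd ℂ) h2) * f).im)]
  rw [e1, Complex.add_im, Complex.im_ofReal_mul, Complex.im_ofReal_mul]
  have k6 := mul_le_mul_of_nonneg_left k1 hA0
  have k7 : (a ^ 2 + b ^ 2) / 2 * (3 / 4 * κ ^ 2) ≤ 3 / 4 * κ ^ 2 := by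
    have : 0 ≤ 3 / 4 * κ ^ 2 := by positivity
    nlinarith
  have k8 : δ * (a + b) / 2 * (2 * M * (3 / 4 * P + κ / 2)) ≤
      (a ^ 2 + b ^ 2) / 2 * (P ^ 2 / 32) + 19 * (δ * M) ^ 2 + κ ^ 2 / 4 := by
    have h5 : δ * (a + b) / 2 * (2 * M * (κ / 2)) ≤ (δ * M) ^ 2 + κ ^ 2 / 4 := by
      have h6 : δ * (a + b) / 2 * (2 * M * (κ / 2)) ≤ (δ * M) * κ := by
        have : 0 ≤ δ * M * κ := by positivity
        nlinarith
      nlinarith [sq_nonneg (δ * M - κ / 2)]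
    have h7 : δ * (a + b) / 2 * (2 * M * (3 / 4 * P)) ≤
        (a ^ 2 + b ^ 2) / 2 * (P ^ 2 / 32) + 18 * (δ * M) ^ 2 := by
      have h8 : ((a + b) * P / 2) ^ 2 ≤ (a ^ 2 + b ^ 2) / 2 * P ^ 2 := by
        nlinarith [mul_nonneg (sq_nonneg (a - b)) (sq_nonneg P)]
      nlinarith [sq_nonneg ((a + b) * P / 2 - 24 * (δ * M))]
    linarith
  linarith

/-! ### summation by parts -/

/-- the box of radius `R` -/
noncomputable def bx (R : ℕ) : Finset (ℤ × ℤ) :=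
  Finset.Icc (-(R : ℤ)) R ×ˢ Finset.Icc (-(R : ℤ)) R

lemma mem_bx {R : ℕ} {u : ℤ × ℤ} : u ∈ bx R ↔ |u.1| ≤ (R : ℤ) ∧ |u.2| ≤ (R : ℤ) := by
  unfold bx
  rw [Finset.mem_product, Finset.mem_Icc, Finset.mem_Icc, abs_le, abs_le]

lemma card_bx (R : ℕ) : ((bx R).card : ℝ) = (2 * R + 1) ^ 2 := by
  unfold bx
  rw [Finset.card_product, Int.card_Icc]
  have : ((R : ℤ) + 1 - -(R : ℤ)).toNat = 2 * R + 1 := by omega
  rw [this]
  push_cast
  ring

/-- `u` is in the open box of radius `R` -/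
def Ins (R : ℕ) (u : ℤ × ℤ) : Prop := |u.1| < (R : ℤ) ∧ |u.2| < (R : ℤ)

/-- a function vanishing off the box of radius `R - 1` : the sum of the shifted function -/
lemma sum_shift {R : ℕ} {g : ℤ × ℤ → ℂ} (hg : ∀ u, ¬ Ins R u → g u = 0) (t : ℤ × ℤ)
    (h1 : |t.1| ≤ 1) (h2 : |t.2| ≤ 1) :
    ∑ u ∈ bx R, g (u + t) = ∑ u ∈ bx R, g u := by
  rw [abs_le] at h1 h2
  have e1 : ∑ u ∈ bx R, g (u + t) = ∑ᶠ u : ℤ × ℤ, g (u + t) := by
    rw [finsum_eq_sum_of_support_subset]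
    intro u hu
    rw [Function.mem_support] at hu
    rw [Finset.mem_coe, mem_bx]
    by_contra hc
    apply hu
    apply hg
    intro h
    apply hc
    obtain ⟨h3, h4⟩ := h
    rw [Prod.fst_add, abs_lt] at h3
    rw [Prod.snd_add, abs_lt] at h4
    rw [abs_le, abs_le]
    omega
  have e2 : ∑ u ∈ bx R, g u = ∑ᶠ u : ℤ × ℤ, g u := by
    rw [finsum_eq_sum_of_support_subset]
    intro u hu
    rw [Function.mem_support] at hu
    rw [Finset.mem_coe, mem_bx]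
    by_contra hc
    apply hu
    apply hg
    intro h
    exact hc ⟨h.1.le, h.2.le⟩
  rw [e1, e2]
  exact finsum_comp_equiv (Equiv.addRight t) (f := g)

/-- **Summation by parts.** -/
lemma sum_parts {R : ℕ} {g Hf : ℤ × ℤ → ℂ} (hg : ∀ u, ¬ Ins R u → g u = 0) :
    ∑ u ∈ bx R, ((g (u + (1, 0)) - g u) * ah Hf u + (g (u + (0, 1)) - g u) * av Hf u) = 0 := by
  have k1 : ∑ u ∈ bx R, g (u + (1, 0)) * ah Hf u = ∑ u ∈ bx R, g u * ah Hf (u - (1, 0)) := by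
    rw [← sum_shift (g := fun u => g u * ah Hf (u - (1, 0))) (t := ((1 : ℤ), (0 : ℤ)))]
    · simp only [add_sub_cancel_right]
    · intro u hu
      simp only [hg u hu, zero_mul]
    · norm_num
    · norm_num
  have k2 : ∑ u ∈ bx R, g (u + (0, 1)) * av Hf u = ∑ u ∈ bx R, g u * av Hf (u - (0, 1)) := by
    rw [← sum_shift (g := fun u => g u * av Hf (u - (0, 1))) (t := ((0 : ℤ), (1 : ℤ)))]
    · simp only [add_sub_cancel_right]
    · intro u hu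
      simp only [hg u hu, zero_mul]
    · norm_num
    · norm_num
  have k3 : ∑ u ∈ bx R, ((g (u + (1, 0)) - g u) * ah Hf u + (g (u + (0, 1)) - g u) * av Hf u) =
      ∑ u ∈ bx R, (g (u + (1, 0)) * ah Hf u + g (u + (0, 1)) * av Hf u -
        (g u * ah Hf u + g u * av Hf u)) := by
    refine Finset.sum_congr rfl fun u _ => ?_
    ring
  rw [k3, Finset.sum_sub_distrib, Finset.sum_add_distrib, k1, k2, ← Finset.sum_add_distrib,
    ← Finset.sum_sub_distrib]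
  refine Finset.sum_eq_zero fun u _ => ?_
  unfold ah av
  simp only [Prod.fst_sub, Prod.snd_sub, sub_zero, sub_add_cancel]
  ring

/-! ### the cutoff -/

/-- cutoff: `1` on the box of radius `R / 2`, `0` off the open box of radius `R` -/
noncomputable def eta (R : ℕ) (u : ℤ × ℤ) : ℝ :=
  max 0 (min 1 (2 - 2 * ((max |u.1| |u.2| : ℤ) : ℝ) / R))

lemma eta_nonneg (R : ℕ) (u : ℤ × ℤ) : 0 ≤ eta R u := le_max_left _ _

lemma eta_le (R : ℕ) (u : ℤ × ℤ) : eta R u ≤ 1 :=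
  max_le zero_le_one (min_le_left _ _)

lemma eta_out {R : ℕ} (hR : 1 ≤ R) {u : ℤ × ℤ} (h : ¬ Ins R u) : eta R u = 0 := by
  have hR0 : (0 : ℝ) < R := by exact_mod_cast hR
  have h1 : (R : ℤ) ≤ max |u.1| |u.2| := by
    by_contra hc
    push Not at hc
    exact h ⟨(le_max_left _ _).trans_lt hc, (le_max_right _ _).trans_lt hc⟩
  have h2 : (R : ℝ) ≤ ((max |u.1| |u.2| : ℤ) : ℝ) := by exact_mod_cast h1
  have h3 : 2 - 2 * ((max |u.1| |u.2| : ℤ) : ℝ) / R ≤ 0 := by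
    have : 1 ≤ ((max |u.1| |u.2| : ℤ) : ℝ) / R := by rw [le_div_iff₀ hR0]; linarith
    have e : 2 * ((max |u.1| |u.2| : ℤ) : ℝ) / R = 2 * (((max |u.1| |u.2| : ℤ) : ℝ) / R) := by ring
    rw [e]; linarith
  unfold eta
  exact max_eq_left ((min_le_right _ _).trans h3)

lemma eta_in {R : ℕ} (hR : 1 ≤ R) {u : ℤ × ℤ} (h : 2 * |u.1| ≤ (R : ℤ) ∧ 2 * |u.2| ≤ (R : ℤ)) :
    eta R u = 1 := by
  have hR0 : (0 : ℝ) < R := by exact_mod_cast hR
  have h1 : 2 * (max |u.1| |u.2|) ≤ (R : ℤ) := by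
    rcases max_cases |u.1| |u.2| with h2 | h2 <;> rw [h2.1]
    · exact h.1
    · exact h.2
  have h2 : 2 * ((max |u.1| |u.2| : ℤ) : ℝ) ≤ R := by exact_mod_cast h1
  have h3 : (1 : ℝ) ≤ 2 - 2 * ((max |u.1| |u.2| : ℤ) : ℝ) / R := by
    have : 2 * ((max |u.1| |u.2| : ℤ) : ℝ) / R ≤ 1 := by rw [div_le_one hR0]; exact h2
    linarith
  unfold eta
  rw [min_eq_left h3]
  norm_num

lemma clamp_lip (x y : ℝ) : |max 0 (min 1 x) - max 0 (min 1 y)| ≤ |x - y| := by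
  have h1 : |max 0 (min 1 x) - max 0 (min 1 y)| ≤ |min 1 x - min 1 y| := by
    have := abs_max_sub_max_le_max (0 : ℝ) (min 1 x) 0 (min 1 y)
    simpa using this
  have h2 : |min 1 x - min 1 y| ≤ |x - y| := by
    have := abs_min_sub_min_le_max (1 : ℝ) x 1 y
    simpa using this
  exact h1.trans h2

lemma eta_lip {R : ℕ} (hR : 1 ≤ R) (u t : ℤ × ℤ) (h1 : |t.1| ≤ 1) (h2 : |t.2| ≤ 1) :
    |eta R (u + t) - eta R u| ≤ 2 / R := by
  have hR0 : (0 : ℝ) < R := by exact_mod_cast hR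
  unfold eta
  refine (clamp_lip _ _).trans ?_
  have h3 : |(max |(u + t).1| |(u + t).2|) - (max |u.1| |u.2|)| ≤ 1 := by
    rw [abs_le] at h1 h2 ⊢
    have a1 := abs_add_le u.1 t.1
    have a2 := abs_add_le u.2 t.2
    have b1 : |u.1| ≤ |u.1 + t.1| + 1 := by
      rcases abs_cases u.1 with h | h <;> rcases abs_cases (u.1 + t.1) with h' | h' <;> omega
    have b2 : |u.2| ≤ |u.2 + t.2| + 1 := by
      rcases abs_cases u.2 with h | h <;> rcases abs_cases (u.2 + t.2) with h' | h' <;> omega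
    have c1 : |u.1 + t.1| ≤ |u.1| + 1 := by
      rcases abs_cases u.1 with h | h <;> rcases abs_cases (u.1 + t.1) with h' | h' <;> omega
    have c2 : |u.2 + t.2| ≤ |u.2| + 1 := by
      rcases abs_cases u.2 with h | h <;> rcases abs_cases (u.2 + t.2) with h' | h' <;> omega
    rw [Prod.fst_add, Prod.snd_add]
    rcases max_cases |u.1 + t.1| |u.2 + t.2| with h | h <;>
      rcases max_cases |u.1| |u.2| with h' | h' <;> omega
  have h4 : |((max |(u + t).1| |(u + t).2| : ℤ) : ℝ) - ((max |u.1| |u.2| : ℤ) : ℝ)| ≤ 1 := by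
    exact_mod_cast h3
  have e : (2 - 2 * ((max |(u + t).1| |(u + t).2| : ℤ) : ℝ) / R) -
      (2 - 2 * ((max |u.1| |u.2| : ℤ) : ℝ) / R) =
      -((2 / R) * (((max |(u + t).1| |(u + t).2| : ℤ) : ℝ) - ((max |u.1| |u.2| : ℤ) : ℝ))) := by
    field_simp
    ring
  rw [e, abs_neg, abs_mul, abs_of_pos (show (0 : ℝ) < 2 / R by positivity)]
  calc (2 / R : ℝ) * |((max |(u + t).1| |(u + t).2| : ℤ) : ℝ) - ((max |u.1| |u.2| : ℤ) : ℝ)|
      ≤ 2 / R * 1 := mul_le_mul_of_nonneg_left h4 (by positivity)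
    _ = _ := mul_one _

/-! ### the inequality -/

/-- the `alpha` component of the two edges from `u` -/
noncomputable def en (Hv Hf : ℤ × ℤ → ℂ) (u : ℤ × ℤ) : ℝ :=
  ‖ah Hf u + I * bh Hv u‖ ^ 2 + ‖av Hf u + I * bv Hv u‖ ^ 2

lemma en_nonneg (Hv Hf : ℤ × ℤ → ℂ) (u : ℤ × ℤ) : 0 ≤ en Hv Hf u := by
  unfold en; positivity

/-- **Caccioppoli inequality.** -/
theorem cacc {R r : ℕ} (hR : 1 ≤ R) (hr : 2 * (r + 1) ≤ R) {Hv Hf : ℤ × ℤ → ℂ} {M ε κ : ℝ}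
    (hM : ∀ u : ℤ × ℤ, |u.1| ≤ (R : ℤ) + 1 → |u.2| ≤ (R : ℤ) + 1 → ‖Hv u‖ ≤ M)
    (hκ : 0 ≤ κ) (hε : ε ≤ 1 / 2)
    (hh : ∀ u ∈ bx R, Rl ε κ (ah Hf u) (bh Hv u)) (hv : ∀ u ∈ bx R, Rl ε κ (av Hf u) (bv Hv u)) :
    ∑ u ∈ bx r, en Hv Hf u ≤ 10944 * M ^ 2 + 144 * κ ^ 2 * R ^ 2 := by
  have hR0 : (0 : ℝ) < R := by exact_mod_cast hR
  have hM0 : 0 ≤ M := (norm_nonneg _).trans (hM 0 (by simp; omega) (by simp; omega))
  set g : ℤ × ℤ → ℂ := fun u => ((eta R u ^ 2 : ℝ) : ℂ) * (starRingEnd ℂ) (Hv u) with hg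
  have hg0 : ∀ u, ¬ Ins R u → g u = 0 := by
    intro u hu
    simp only [hg, eta_out hR hu]
    simp
  have key : ∀ u ∈ bx R, ∀ t : ℤ × ℤ, |t.1| ≤ 1 → |t.2| ≤ 1 → ∀ f : ℂ, Rl ε κ f (Hv (u + t) - Hv u) →
      (eta R u ^ 2 + eta R (u + t) ^ 2) / 2 * (‖f + I * (Hv (u + t) - Hv u)‖ ^ 2 / 8) ≤
        ((g (u + t) - g u) * f).im + (19 * (2 / R * M) ^ 2 + κ ^ 2) := by
    intro u hu t h1 h2 f hf
    rw [mem_bx] at hu
    have a1 : ‖Hv u‖ ≤ M := hM u (by omega) (by omega)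
    have a2 : ‖Hv (u + t)‖ ≤ M := by
      apply hM
      · rw [Prod.fst_add]; exact (abs_add_le _ _).trans (by omega)
      · rw [Prod.snd_add]; exact (abs_add_le _ _).trans (by omega)
    exact edge_ineq (eta_nonneg R u) (eta_nonneg R (u + t)) (eta_le R u) (eta_le R (u + t))
      (eta_lip hR u t h1 h2) a1 a2 hκ hε hf
  have k1 : ∑ u ∈ bx r, en Hv Hf u ≤ ∑ u ∈ bx R,
      ((eta R u ^ 2 + eta R (u + (1, 0)) ^ 2) / 2 * ‖ah Hf u + I * bh Hv u‖ ^ 2 +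
        (eta R u ^ 2 + eta R (u + (0, 1)) ^ 2) / 2 * ‖av Hf u + I * bv Hv u‖ ^ 2) := by
    have hsub : bx r ⊆ bx R := by
      intro u hu
      rw [mem_bx] at hu ⊢
      omega
    refine le_trans (le_of_eq ?_) (Finset.sum_le_sum_of_subset_of_nonneg hsub ?_)
    · refine Finset.sum_congr rfl fun u hu => ?_
      rw [mem_bx] at hu
      have b0 : eta R u = 1 := eta_in hR ⟨by omega, by omega⟩
      have b1 : eta R (u + (1, 0)) = 1 := by
        apply eta_in hR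
        rw [Prod.fst_add, Prod.snd_add]
        have := abs_add_le u.1 1
        have := abs_add_le u.2 0
        simp only [abs_one, abs_zero] at *
        omega
      have b2 : eta R (u + (0, 1)) = 1 := by
        apply eta_in hR
        rw [Prod.fst_add, Prod.snd_add]
        have := abs_add_le u.1 0
        have := abs_add_le u.2 1
        simp only [abs_one, abs_zero] at *
        omega
      rw [b0, b1, b2]
      unfold en
      ring
    · intro u _ _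
      positivity
  have k2 : ∑ u ∈ bx R,
      ((eta R u ^ 2 + eta R (u + (1, 0)) ^ 2) / 2 * ‖ah Hf u + I * bh Hv u‖ ^ 2 +
        (eta R u ^ 2 + eta R (u + (0, 1)) ^ 2) / 2 * ‖av Hf u + I * bv Hv u‖ ^ 2) ≤
      ∑ u ∈ bx R, (8 * ((g (u + (1, 0)) - g u) * ah Hf u + (g (u + (0, 1)) - g u) * av Hf u).im +
        16 * (19 * (2 / R * M) ^ 2 + κ ^ 2)) := by
    refine Finset.sum_le_sum fun u hu => ?_
    have e1 := key u hu (1, 0) (by norm_num) (by norm_num) (ah Hf u) (by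
      have := hh u hu
      unfold bh at this
      have e : u + ((1 : ℤ), (0 : ℤ)) = (u.1 + 1, u.2) := by ext <;> simp
      rw [e]; exact this)
    have e2 := key u hu (0, 1) (by norm_num) (by norm_num) (av Hf u) (by
      have := hv u hu
      unfold bv at this
      have e : u + ((0 : ℤ), (1 : ℤ)) = (u.1, u.2 + 1) := by ext <;> simp
      rw [e]; exact this)
    have f1 : Hv (u + (1, 0)) - Hv u = bh Hv u := by
      unfold bh
      have e : u + ((1 : ℤ), (0 : ℤ)) = (u.1 + 1, u.2) := by ext <;> simp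
      rw [e]
    have f2 : Hv (u + (0, 1)) - Hv u = bv Hv u := by
      unfold bv
      have e : u + ((0 : ℤ), (1 : ℤ)) = (u.1, u.2 + 1) := by ext <;> simp
      rw [e]
    rw [f1] at e1
    rw [f2] at e2
    rw [Complex.add_im]
    linarith
  have k3 : ∑ u ∈ bx R, (8 * ((g (u + (1, 0)) - g u) * ah Hf u + (g (u + (0, 1)) - g u) *
      av Hf u).im + 16 * (19 * (2 / R * M) ^ 2 + κ ^ 2)) = 16 * (19 * (2 / R * M) ^ 2 + κ ^ 2) * (2 * R + 1) ^ 2 := by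
    rw [Finset.sum_add_distrib, ← Finset.mul_sum, ← Complex.im_sum, sum_parts hg0, Complex.zero_im,
      mul_zero, zero_add, Finset.sum_const, nsmul_eq_mul, card_bx]
    ring
  refine k1.trans (k2.trans (k3.le.trans ?_))
  have h3 : (2 * (R : ℝ) + 1) / R ≤ 3 := by
    rw [div_le_iff₀ hR0]
    have : (1 : ℝ) ≤ R := by exact_mod_cast hR
    linarith
  have h4 : 16 * (19 * (2 / R * M) ^ 2 + κ ^ 2) * (2 * R + 1) ^ 2 =
      (1216 * M ^ 2 + 16 * κ ^ 2 * R ^ 2) * ((2 * (R : ℝ) + 1) / R) ^ 2 := by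
    field_simp
    ring
  rw [h4]
  have h5 : ((2 * (R : ℝ) + 1) / R) ^ 2 ≤ 3 ^ 2 := pow_le_pow_left₀ (by positivity) h3 2
  have h6 : 0 ≤ 1216 * M ^ 2 + 16 * κ ^ 2 * R ^ 2 := by positivity
  nlinarith

end Pool.Agent.H79.ZF
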