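import Mathlib
import Pool.Agent.H79.ZF.Cac

set_option autoImplicit false

open Complex Finset

/-! # Discrete contour sums -/

namespace Pool.Agent.H79.ZF

lemma tele_nat (u : ℤ → ℂ) (a : ℤ) (n : ℕ) :
    ∑ i ∈ Ico a (a + n), (u (i + 1) - u i) = u (a + n) - u a := by
  induction n with
  | zero => simp
  | succ n ih =>
    have e1 : Ico a (a + ((n + 1 : ℕ) : ℤ)) = insert (a + n) (Ico a (a + n)) := by
      ext i; simp only [mem_insert, mem_Ico]; push_cast; omega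
    rw [e1, sum_insert (by simp), ih]
    push_cast
    rw [← add_assoc]
    ring

lemma tele (u : ℤ → ℂ) {a b : ℤ} (h : a ≤ b) :
    ∑ i ∈ Ico a b, (u (i + 1) - u i) = u b - u a := by
  obtain ⟨n, hn⟩ := Int.eq_ofNat_of_zero_le (sub_nonneg.2 h)
  have : b = a + n := by omega
  rw [this]
  exact tele_nat u a n

/-- sum of the defect of the horizontal edges over a rectangle -/
lemma sum_defect (Hv Hf : ℤ × ℤ → ℂ) {x0 x1 y0 y1 : ℤ} (hx : x0 ≤ x1) (hy : y0 ≤ y1) :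
    ∑ u ∈ Ico x0 x1 ×ˢ Ico y0 y1, (ah Hf u - I * bh Hv u) =
      ∑ x ∈ Ico x0 x1, (Hf (x + 1, y1) - Hf (x + 1, y0)) -
        I * ∑ y ∈ Ico y0 y1, (Hv (x1, y) - Hv (x0, y)) := by
  rw [sum_sub_distrib, ← mul_sum]
  congr 1
  · rw [sum_product]
    refine sum_congr rfl fun x _ => ?_
    exact tele (fun y => Hf (x + 1, y)) hy
  · congr 1
    rw [sum_product_right]
    refine sum_congr rfl fun y _ => ?_
    exact tele (fun x => Hv (x, y)) hx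

theorem contour {R r : ℕ} (hR : 1 ≤ R) (hr : 2 * (r + 1) ≤ R) {Hv Hf : ℤ × ℤ → ℂ} {M ε κ : ℝ}
    (hM : ∀ u : ℤ × ℤ, |u.1| ≤ (R : ℤ) + 1 → |u.2| ≤ (R : ℤ) + 1 → ‖Hv u‖ ≤ M)
    (hκ : 0 ≤ κ) (hε0 : 0 ≤ ε) (hε : ε ≤ 1 / 2)
    (hh : ∀ u ∈ bx R, Rl ε κ (ah Hf u) (bh Hv u)) (hv : ∀ u ∈ bx R, Rl ε κ (av Hf u) (bv Hv u))
    (hE : ∀ x y : ℤ, |x| ≤ (r : ℤ) → |y| ≤ (r : ℤ) → ‖Hv (x, y) - Hf (x + 1, y)‖ ≤ 1)
    {x0 x1 y0 y1 : ℤ} (hx : x0 ≤ x1) (hy : y0 ≤ y1) (h1 : -(r : ℤ) ≤ x0) (h2 : x1 ≤ (r : ℤ))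
    (h3 : -(r : ℤ) ≤ y0) (h4 : y1 ≤ (r : ℤ)) :
    ‖∑ x ∈ Ico x0 x1, (Hv (x, y1) - Hv (x, y0)) - I * ∑ y ∈ Ico y0 y1, (Hv (x1, y) - Hv (x0, y))‖ ≤
      ε * (105 * M + 12 * κ * R) * (2 * r + 1) + κ * (2 * r + 1) ^ 2 + 2 * (2 * r + 1) := by
  have hM0 : 0 ≤ M := (norm_nonneg _).trans (hM 0 (by simp; omega) (by simp; omega))
  have hsub : Ico x0 x1 ×ˢ Ico y0 y1 ⊆ bx r := by
    intro u hu
    rw [mem_product, mem_Ico, mem_Ico] at hu
    rw [mem_bx, abs_le, abs_le]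
    omega
  have hsubR : bx r ⊆ bx R := by
    intro u hu
    rw [mem_bx] at hu ⊢
    omega
  set S := ∑ u ∈ Ico x0 x1 ×ˢ Ico y0 y1, (ah Hf u - I * bh Hv u) with hS
  have e1 : ∑ x ∈ Ico x0 x1, (Hv (x, y1) - Hv (x, y0)) -
      I * ∑ y ∈ Ico y0 y1, (Hv (x1, y) - Hv (x0, y)) = S +
      ∑ x ∈ Ico x0 x1, ((Hv (x, y1) - Hf (x + 1, y1)) - (Hv (x, y0) - Hf (x + 1, y0))) := by
    rw [hS, sum_defect Hv Hf hx hy]
    simp only [sum_sub_distrib]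
    ring
  have b1 : ‖∑ x ∈ Ico x0 x1, ((Hv (x, y1) - Hf (x + 1, y1)) - (Hv (x, y0) - Hf (x + 1, y0)))‖ ≤
      2 * (2 * r + 1) := by
    calc _ ≤ ∑ x ∈ Ico x0 x1, ‖(Hv (x, y1) - Hf (x + 1, y1)) - (Hv (x, y0) - Hf (x + 1, y0))‖ :=
          norm_sum_le _ _
      _ ≤ ∑ x ∈ Ico x0 x1, (2 : ℝ) := by
          refine sum_le_sum fun x hx' => ?_
          rw [mem_Ico] at hx'
          have a1 : |x| ≤ (r : ℤ) := by rw [abs_le]; omega
          have a2 : |y1| ≤ (r : ℤ) := by rw [abs_le]; omega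
          have a3 : |y0| ≤ (r : ℤ) := by rw [abs_le]; omega
          have c1 := hE x y1 a1 a2
          have c2 := hE x y0 a1 a3
          exact (norm_sub_le _ _).trans (by linarith)
      _ = 2 * ((x1 - x0).toNat : ℝ) := by
          rw [sum_const, Int.card_Ico, nsmul_eq_mul]; ring
      _ ≤ 2 * (2 * r + 1) := by
          have : (x1 - x0).toNat ≤ 2 * r + 1 := by omega
          have h5 : ((x1 - x0).toNat : ℝ) ≤ ((2 * r + 1 : ℕ) : ℝ) := by exact_mod_cast this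
          push_cast at h5
          linarith
  have b2 : ‖S‖ ≤ ε * (105 * M + 12 * κ * R) * (2 * r + 1) + κ * (2 * r + 1) ^ 2 := by
    have c1 : ‖S‖ ≤ ε * ∑ u ∈ bx r, ‖ah Hf u + I * bh Hv u‖ + κ * (2 * r + 1) ^ 2 := by
      have hc : κ * (2 * (r : ℝ) + 1) ^ 2 = ∑ u ∈ bx r, κ := by
        rw [sum_const, nsmul_eq_mul, card_bx]; ring
      rw [hc, mul_sum, ← sum_add_distrib]
      calc ‖S‖ ≤ ∑ u ∈ Ico x0 x1 ×ˢ Ico y0 y1, ‖ah Hf u - I * bh Hv u‖ := norm_sum_le _ _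
        _ ≤ ∑ u ∈ Ico x0 x1 ×ˢ Ico y0 y1, (ε * ‖ah Hf u + I * bh Hv u‖ + κ) :=
            sum_le_sum fun u hu => hh u (hsubR (hsub hu))
        _ ≤ _ := sum_le_sum_of_subset_of_nonneg hsub fun u _ _ => by positivity
    have c2 : (∑ u ∈ bx r, ‖ah Hf u + I * bh Hv u‖) ^ 2 ≤
        ((105 * M + 12 * κ * R) * (2 * r + 1)) ^ 2 := by
      have d1 := sq_sum_le_card_mul_sum_sq (s := bx r) (f := fun u => ‖ah Hf u + I * bh Hv u‖)
      have d2 : ∑ u ∈ bx r, ‖ah Hf u + I * bh Hv u‖ ^ 2 ≤ (105 * M + 12 * κ * R) ^ 2 := by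
        refine le_trans (sum_le_sum fun u _ => ?_) ((cacc hR hr hM hκ hε hh hv).trans ?_)
        · unfold en
          have := sq_nonneg ‖av Hf u + I * bv Hv u‖
          linarith
        · have : 0 ≤ M * (κ * R) := by positivity
          nlinarith [sq_nonneg M]
      rw [card_bx] at d1
      have d3 : (0 : ℝ) ≤ (2 * (r : ℝ) + 1) ^ 2 := by positivity
      have d4 := mul_le_mul_of_nonneg_left d2 d3
      calc _ ≤ _ := d1
        _ ≤ _ := d4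
        _ = _ := by ring
    have c3 : ∑ u ∈ bx r, ‖ah Hf u + I * bh Hv u‖ ≤ (105 * M + 12 * κ * R) * (2 * r + 1) :=
      le_of_sq_le_sq c2 (by positivity)
    have c4 := mul_le_mul_of_nonneg_left c3 hε0
    linarith
  rw [e1]
  exact (norm_add_le _ _).trans (add_le_add b2 b1)

end Pool.Agent.H79.ZF
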