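import Mathlib

set_option autoImplicit false

open Filter Topology Complex

/-! # Limits along an ultrafilter of asymptotically equicontinuous functions -/

namespace Pool.Agent.H79.ZF

/-- asymptotic equicontinuity on `S` along `U` -/
def AEq (U : Ultrafilter ℕ) (S : Set ℂ) (h : ℕ → ℂ → ℂ) : Prop :=
  ∀ ε > 0, ∃ δ > 0, ∀ᶠ j in (U : Filter ℕ), ∀ z ∈ S, ∀ w ∈ S, dist z w < δ → ‖h j z - h j w‖ ≤ ε

/-- uniform convergence on `S` along `U` -/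
def ULim (U : Ultrafilter ℕ) (S : Set ℂ) (h : ℕ → ℂ → ℂ) (g : ℂ → ℂ) : Prop :=
  ∀ ε > 0, ∀ᶠ j in (U : Filter ℕ), ∀ z ∈ S, ‖h j z - g z‖ ≤ ε

theorem exists_lim {S : Set ℂ} (hS : TotallyBounded S) {U : Ultrafilter ℕ} {h : ℕ → ℂ → ℂ} {C : ℝ}
    (hb : ∀ᶠ j in (U : Filter ℕ), ∀ z ∈ S, ‖h j z‖ ≤ C) (heq : AEq U S h) : ∃ g, ULim U S h g := by
  have hex : ∀ z ∈ S, ∃ a : ℂ, Tendsto (fun j => h j z) (U : Filter ℕ) (𝓝 a) := by
    intro z hz
    have hc : IsCompact (Metric.closedBall (0 : ℂ) C) := isCompact_closedBall _ _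
    have h1 : Metric.closedBall (0 : ℂ) C ∈ (U.map (fun j => h j z)) := by
      rw [Ultrafilter.mem_map]
      filter_upwards [hb] with j hj
      rw [Set.mem_preimage, mem_closedBall_zero_iff]
      exact hj z hz
    obtain ⟨a, -, ha⟩ := hc.ultrafilter_le_nhds' _ h1
    exact ⟨a, ha⟩
  choose! g hg using hex
  refine ⟨g, fun ε hε => ?_⟩
  obtain ⟨δ, hδ, hE⟩ := heq (ε / 4) (by positivity)
  have hgg : ∀ z ∈ S, ∀ w ∈ S, dist z w < δ → ‖g z - g w‖ ≤ ε / 4 := by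
    intro z hz w hw hd
    have h1 : Tendsto (fun j => ‖h j z - h j w‖) (U : Filter ℕ) (𝓝 ‖g z - g w‖) :=
      ((hg z hz).sub (hg w hw)).norm
    exact le_of_tendsto h1 (hE.mono fun j hj => hj z hz w hw hd)
  obtain ⟨t, htS, htf, ht⟩ := totallyBounded_iff_subset.1 hS {p | dist p.1 p.2 < δ}
    (Metric.dist_mem_uniformity hδ)
  have h2 : ∀ᶠ j in (U : Filter ℕ), ∀ y ∈ t, ‖h j y - g y‖ ≤ ε / 4 := by
    rw [Filter.eventually_all_finite htf]
    intro y hy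
    have h1 : Tendsto (fun j => ‖h j y - g y‖) (U : Filter ℕ) (𝓝 ‖g y - g y‖) :=
      ((hg y (htS hy)).sub_const _).norm
    rw [sub_self, norm_zero] at h1
    exact (h1.eventually (gt_mem_nhds (show (0 : ℝ) < ε / 4 by positivity))).mono fun j hj => hj.le
  filter_upwards [hE, h2] with j h3 h4 z hz
  have h5 := ht hz
  simp only [Set.mem_iUnion, Set.mem_ofPred_eq, exists_prop] at h5
  obtain ⟨y, hy, hd⟩ := h5
  have a1 := h3 z hz y (htS hy) hd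
  have a2 := h4 y hy
  have a3 := hgg z hz y (htS hy) hd
  calc ‖h j z - g z‖ = ‖(h j z - h j y) + (h j y - g y) - (g z - g y)‖ := by ring_nf
    _ ≤ ‖(h j z - h j y) + (h j y - g y)‖ + ‖g z - g y‖ := norm_sub_le _ _
    _ ≤ (‖h j z - h j y‖ + ‖h j y - g y‖) + ‖g z - g y‖ := by gcongr; exact norm_add_le _ _
    _ ≤ ε := by linarith

lemma ULim.unif {S : Set ℂ} {U : Ultrafilter ℕ} {h : ℕ → ℂ → ℂ} {g : ℂ → ℂ} (hl : ULim U S h g)
    (heq : AEq U S h) : ∀ ε > 0, ∃ δ > 0, ∀ z ∈ S, ∀ w ∈ S, dist z w < δ → ‖g z - g w‖ ≤ ε := by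
  intro ε hε
  obtain ⟨δ, hδ, hE⟩ := heq (ε / 3) (by positivity)
  refine ⟨δ, hδ, fun z hz w hw hd => ?_⟩
  obtain ⟨j, h1, h2⟩ := (hE.and (hl (ε / 3) (by positivity))).exists
  have a1 := h1 z hz w hw hd
  have a2 := h2 z hz
  have a3 := h2 w hw
  calc ‖g z - g w‖ = ‖(h j z - h j w) - (h j z - g z) + (h j w - g w)‖ := by ring_nf
    _ ≤ ‖(h j z - h j w) - (h j z - g z)‖ + ‖h j w - g w‖ := norm_add_le _ _
    _ ≤ (‖h j z - h j w‖ + ‖h j z - g z‖) + ‖h j w - g w‖ := by gcongr; exact norm_sub_le _ _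
    _ ≤ ε := by linarith

lemma ULim.continuousOn {S : Set ℂ} {U : Ultrafilter ℕ} {h : ℕ → ℂ → ℂ} {g : ℂ → ℂ}
    (hl : ULim U S h g) (heq : AEq U S h) : ContinuousOn g S := by
  rw [Metric.continuousOn_iff]
  intro z hz ε hε
  obtain ⟨δ, hδ, h1⟩ := hl.unif heq (ε / 2) (by positivity)
  refine ⟨δ, hδ, fun w hw hd => ?_⟩
  rw [dist_eq_norm]
  exact (h1 w hw z hz hd).trans_lt (by linarith)

end Pool.Agent.H79.ZF
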