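import Mathlib
import Pool.Agent.H79.ZF.Cont
import Pool.Agent.H79.ZF.Lim

set_option autoImplicit false

open Complex Finset Filter Topology

/-! # The scaled primitive -/

namespace Pool.Agent.H79.ZF

/-- `H` (vertices) and `Hf` (faces) in the box of half size `N` : a priori bound, nearness, relative
Cauchy-Riemann relations -/
structure Dat (C ε : ℝ) (N : ℕ) (H Hf : ℤ × ℤ → ℂ) : Prop where
  zero : H 0 = 0
  ap : ∀ (p q : ℤ × ℤ) (m : ℕ), |p.1| + m ≤ (N : ℤ) → |p.2| + m ≤ (N : ℤ) →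
    4 * |q.1 - p.1| ≤ (m : ℤ) → 4 * |q.2 - p.2| ≤ (m : ℤ) → ‖H q - H p‖ ≤ C * (m : ℝ) ^ (2 / 3 : ℝ)
  near : ∀ x y : ℤ, 4 * |x| ≤ (N : ℤ) → 4 * |y| ≤ (N : ℤ) → ‖H (x, y) - Hf (x + 1, y)‖ ≤ 1
  rh : ∀ u : ℤ × ℤ, 4 * |u.1| ≤ (N : ℤ) → 4 * |u.2| ≤ (N : ℤ) →
    Rl ε (1 / (N : ℝ) ^ 2) (ah Hf u) (bh H u)
  rv : ∀ u : ℤ × ℤ, 4 * |u.1| ≤ (N : ℤ) → 4 * |u.2| ≤ (N : ℤ) →
    Rl ε (1 / (N : ℝ) ^ 2) (av Hf u) (bv H u)

/-- the scaled values -/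
noncomputable def sH (N : ℕ) (H : ℤ × ℤ → ℂ) (u : ℤ × ℤ) : ℂ := H u / (((N : ℝ) ^ (2 / 3 : ℝ) : ℝ) : ℂ)

/-- the scaled function -/
noncomputable def sc (N : ℕ) (H : ℤ × ℤ → ℂ) (z : ℂ) : ℂ := sH N H (⌊(N : ℝ) * z.re⌋, ⌊(N : ℝ) * z.im⌋)

variable {C ε : ℝ} {N : ℕ} {H Hf : ℤ × ℤ → ℂ}

lemma Dat.bound (hD : Dat C ε N H Hf) {u : ℤ × ℤ} (h1 : 4 * |u.1| ≤ (N : ℤ))
    (h2 : 4 * |u.2| ≤ (N : ℤ)) : ‖H u‖ ≤ C * (N : ℝ) ^ (2 / 3 : ℝ) := by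
  have := hD.ap 0 u N (by simp) (by simp) (by simpa using h1) (by simpa using h2)
  rwa [hD.zero, sub_zero] at this

lemma sH_norm (hN : 0 < N) (u v : ℤ × ℤ) {B : ℝ} (h : ‖H u - H v‖ ≤ B * (N : ℝ) ^ (2 / 3 : ℝ)) :
    ‖sH N H u - sH N H v‖ ≤ B := by
  have hP : (0 : ℝ) < (N : ℝ) ^ (2 / 3 : ℝ) := Real.rpow_pos_of_pos (by exact_mod_cast hN) _
  unfold sH
  rw [← sub_div, norm_div, Complex.norm_real, Real.norm_of_nonneg hP.le, div_le_iff₀ hP]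
  exact h

lemma Dat.sH_le (hD : Dat C ε N H Hf) (hN : 0 < N) {u : ℤ × ℤ} (h1 : 4 * |u.1| ≤ (N : ℤ))
    (h2 : 4 * |u.2| ≤ (N : ℤ)) : ‖sH N H u‖ ≤ C := by
  have hP : (0 : ℝ) < (N : ℝ) ^ (2 / 3 : ℝ) := Real.rpow_pos_of_pos (by exact_mod_cast hN) _
  unfold sH
  rw [norm_div, Complex.norm_real, Real.norm_of_nonneg hP.le, div_le_iff₀ hP]
  exact hD.bound h1 h2

/-- the contour sums are small -/
lemma Dat.ctr (hD : Dat C ε N H Hf) (hC : 0 < C) (hN : 64 ≤ N) (hε0 : 0 ≤ ε) (hε : ε ≤ 1 / 2)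
    {x0 x1 y0 y1 : ℤ} (hx : x0 ≤ x1) (hy : y0 ≤ y1) (h1 : -(N : ℤ) - 16 ≤ 16 * x0)
    (h2 : 16 * x1 ≤ (N : ℤ)) (h3 : -(N : ℤ) - 16 ≤ 16 * y0) (h4 : 16 * y1 ≤ (N : ℤ)) :
    ‖((1 / (N : ℝ) : ℂ) * ∑ x ∈ Ico x0 x1, sH N H (x, y1) -
        (1 / (N : ℝ) : ℂ) * ∑ x ∈ Ico x0 x1, sH N H (x, y0)) -
      I * ((1 / (N : ℝ) : ℂ) * ∑ y ∈ Ico y0 y1, sH N H (x1, y) -
        (1 / (N : ℝ) : ℂ) * ∑ y ∈ Ico y0 y1, sH N H (x0, y))‖ ≤
      105 * ε * C + 3 / (N : ℝ) ^ (2 / 3 : ℝ) := by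
  have hN0 : (0 : ℝ) < N := by exact_mod_cast (show 0 < N by omega)
  have hP : (0 : ℝ) < (N : ℝ) ^ (2 / 3 : ℝ) := Real.rpow_pos_of_pos hN0 _
  set P := (N : ℝ) ^ (2 / 3 : ℝ) with hPdef
  have key := Pool.Agent.H79.ZF.contour (R := N / 4 - 1) (r := N / 16 + 2) (by omega) (by omega)
    (Hv := H) (Hf := Hf) (M := C * P) (ε := ε) (κ := 1 / (N : ℝ) ^ 2)
    (fun u a1 a2 => hD.bound (by omega) (by omega)) (by positivity) hε0 hε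
    (fun u hu => by rw [mem_bx] at hu; exact hD.rh u (by omega) (by omega))
    (fun u hu => by rw [mem_bx] at hu; exact hD.rv u (by omega) (by omega))
    (fun x y a1 a2 => hD.near x y (by omega) (by omega)) hx hy
    (by omega) (by omega) (by omega) (by omega)
  have hr : 2 * ((N / 16 + 2 : ℕ) : ℝ) + 1 ≤ N := by
    have : 2 * (N / 16 + 2) + 1 ≤ N := by omega
    exact_mod_cast this
  have hR : ((N / 4 - 1 : ℕ) : ℝ) ≤ N := by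
    have : N / 4 - 1 ≤ N := by omega
    exact_mod_cast this
  have hN64 : (64 : ℝ) ≤ N := by exact_mod_cast hN
  have key2 := key.trans (show ε * (105 * (C * P) + 12 * (1 / (N : ℝ) ^ 2) * ((N / 4 - 1 : ℕ) : ℝ)) *
      (2 * ((N / 16 + 2 : ℕ) : ℝ) + 1) + 1 / (N : ℝ) ^ 2 * (2 * ((N / 16 + 2 : ℕ) : ℝ) + 1) ^ 2 +
      2 * (2 * ((N / 16 + 2 : ℕ) : ℝ) + 1) ≤ 105 * ε * (C * P) * N + 3 * N by
    set r' := 2 * ((N / 16 + 2 : ℕ) : ℝ) + 1 with hr'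
    have hr0 : 0 ≤ r' := by positivity
    set R' := ((N / 4 - 1 : ℕ) : ℝ) with hR'
    have hR0 : 0 ≤ R' := by positivity
    have q1 : 1 / (N : ℝ) ^ 2 * r' ^ 2 ≤ 1 := by
      rw [one_div_mul_eq_div, div_le_one (by positivity)]
      exact pow_le_pow_left₀ hr0 hr 2
    have q2 : 12 * (1 / (N : ℝ) ^ 2) * R' ≤ 12 / N := by
      rw [show (12 : ℝ) / N = 12 * (1 / (N : ℝ) ^ 2) * N by field_simp]
      exact mul_le_mul_of_nonneg_left hR (by positivity)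
    have q3 : ε * (105 * (C * P) + 12 * (1 / (N : ℝ) ^ 2) * R') * r' ≤
        ε * (105 * (C * P) + 12 / N) * N := by
      apply mul_le_mul _ hr hr0 (by positivity)
      apply mul_le_mul_of_nonneg_left _ hε0
      linarith
    have q4 : ε * (105 * (C * P) + 12 / N) * N = 105 * ε * (C * P) * N + 12 * ε := by
      field_simp
    linarith)
  have e : ((1 / (N : ℝ) : ℂ) * ∑ x ∈ Ico x0 x1, sH N H (x, y1) -
        (1 / (N : ℝ) : ℂ) * ∑ x ∈ Ico x0 x1, sH N H (x, y0)) -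
      I * ((1 / (N : ℝ) : ℂ) * ∑ y ∈ Ico y0 y1, sH N H (x1, y) -
        (1 / (N : ℝ) : ℂ) * ∑ y ∈ Ico y0 y1, sH N H (x0, y)) =
      (1 / ((N : ℝ) * P : ℝ) : ℂ) * (∑ x ∈ Ico x0 x1, (H (x, y1) - H (x, y0)) -
        I * ∑ y ∈ Ico y0 y1, (H (x1, y) - H (x0, y))) := by
    unfold sH
    rw [← hPdef]
    simp only [← sum_div, sum_sub_distrib]
    have hN1 : ((N : ℝ) : ℂ) ≠ 0 := by exact_mod_cast hN0.ne'
    have hP1 : (P : ℂ) ≠ 0 := by exact_mod_cast hP.ne'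
    push_cast
    field_simp
  rw [e, norm_mul]
  have n1 : ‖(1 / ((N : ℝ) * P : ℝ) : ℂ)‖ = 1 / (N * P) := by
    rw [norm_div, norm_one, Complex.norm_real, Real.norm_of_nonneg (by positivity)]
  rw [n1]
  calc 1 / ((N : ℝ) * P) * _ ≤ 1 / ((N : ℝ) * P) * (105 * ε * (C * P) * N + 3 * N) :=
        mul_le_mul_of_nonneg_left key2 (by positivity)
    _ = _ := by field_simp

/-- floors of a small number -/
lemma fl (hN : 0 < N) {t : ℝ} (ht : |t| < 1 / 16) :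
    -(N : ℤ) - 16 ≤ 16 * ⌊(N : ℝ) * t⌋ ∧ 16 * ⌊(N : ℝ) * t⌋ ≤ (N : ℤ) := by
  have hN0 : (0 : ℝ) < N := by exact_mod_cast hN
  rw [abs_lt] at ht
  have h1 := Int.floor_le ((N : ℝ) * t)
  have h2 := Int.lt_floor_add_one ((N : ℝ) * t)
  have h3 : (N : ℝ) * t ≤ N * (1 / 16) := mul_le_mul_of_nonneg_left ht.2.le hN0.le
  have h4 : (N : ℝ) * (-(1 / 16)) ≤ N * t := mul_le_mul_of_nonneg_left ht.1.le hN0.le
  constructor
  · have : -(N : ℝ) - 16 ≤ 16 * (⌊(N : ℝ) * t⌋ : ℝ) := by linarith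
    exact_mod_cast this
  · have : 16 * (⌊(N : ℝ) * t⌋ : ℝ) ≤ N := by linarith
    exact_mod_cast this

lemma re_lt {z : ℂ} (hz : z ∈ Metric.ball (0 : ℂ) (1 / 16)) : |z.re| < 1 / 16 := by
  rw [mem_ball_zero_iff] at hz
  exact (Complex.abs_re_le_norm z).trans_lt hz

lemma im_lt {z : ℂ} (hz : z ∈ Metric.ball (0 : ℂ) (1 / 16)) : |z.im| < 1 / 16 := by
  rw [mem_ball_zero_iff] at hz
  exact (Complex.abs_im_le_norm z).trans_lt hz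

lemma Dat.sc_le (hD : Dat C ε N H Hf) (hN : 64 ≤ N) {z : ℂ}
    (hz : z ∈ Metric.ball (0 : ℂ) (1 / 16)) : ‖sc N H z‖ ≤ C := by
  have h1 := fl (show 0 < N by omega) (re_lt hz)
  have h2 := fl (show 0 < N by omega) (im_lt hz)
  apply hD.sH_le (by omega)
  · simp only
    rcases abs_cases ⌊(N : ℝ) * z.re⌋ with h | h <;> omega
  · simp only
    rcases abs_cases ⌊(N : ℝ) * z.im⌋ with h | h <;> omega

/-- modulus of continuity -/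
lemma Dat.sc_sub (hD : Dat C ε N H Hf) (hC : 0 < C) {δ : ℝ} (hδ : 0 < δ) (hδ1 : δ ≤ 1 / 8)
    (hN : 64 ≤ N) (hN2 : 5 ≤ 4 * δ * N) {z w : ℂ} (hz : z ∈ Metric.ball (0 : ℂ) (1 / 16))
    (hw : w ∈ Metric.ball (0 : ℂ) (1 / 16)) (hd : dist z w < δ) :
    ‖sc N H z - sc N H w‖ ≤ C * (8 * δ) ^ (2 / 3 : ℝ) := by
  have hN0 : (0 : ℝ) < N := by exact_mod_cast (show 0 < N by omega)
  have h1 := fl (show 0 < N by omega) (re_lt hw)
  have h2 := fl (show 0 < N by omega) (im_lt hw)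
  set m : ℕ := ⌈4 * δ * N⌉₊ + 4 with hm
  have hm1 : (m : ℝ) ≤ 4 * δ * N + 5 := by
    have := Nat.ceil_lt_add_one (show 0 ≤ 4 * δ * N by positivity)
    rw [hm]; push_cast; linarith
  have hm2 : 4 * δ * N + 4 ≤ m := by
    have := Nat.le_ceil (4 * δ * N)
    rw [hm]; push_cast; linarith
  have hm3 : 2 * m ≤ N + 10 := by
    have : 2 * (m : ℝ) ≤ N + 10 := by nlinarith
    exact_mod_cast this
  have hfl : ∀ s t : ℝ, |s - t| < δ → 4 * |⌊(N : ℝ) * s⌋ - ⌊(N : ℝ) * t⌋| ≤ (m : ℤ) := by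
    intro s t hst
    rw [abs_lt] at hst
    have a1 := Int.floor_le ((N : ℝ) * s)
    have a2 := Int.lt_floor_add_one ((N : ℝ) * s)
    have a3 := Int.floor_le ((N : ℝ) * t)
    have a4 := Int.lt_floor_add_one ((N : ℝ) * t)
    have a5 : (N : ℝ) * (s - t) ≤ N * δ := mul_le_mul_of_nonneg_left hst.2.le hN0.le
    have a6 : (N : ℝ) * (-δ) ≤ N * (s - t) := mul_le_mul_of_nonneg_left hst.1.le hN0.le
    have a7 : 4 * |(⌊(N : ℝ) * s⌋ : ℝ) - (⌊(N : ℝ) * t⌋ : ℝ)| ≤ m := by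
      have : |(⌊(N : ℝ) * s⌋ : ℝ) - (⌊(N : ℝ) * t⌋ : ℝ)| ≤ δ * N + 1 := by
        rw [abs_le]
        constructor <;> nlinarith
      linarith
    exact_mod_cast a7
  have hre : |z.re - w.re| < δ := by
    rw [dist_eq_norm] at hd
    exact (Complex.abs_re_le_norm (z - w)).trans_lt hd
  have him : |z.im - w.im| < δ := by
    rw [dist_eq_norm] at hd
    exact (Complex.abs_im_le_norm (z - w)).trans_lt hd
  apply sH_norm (by omega)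
  have key := hD.ap (⌊(N : ℝ) * w.re⌋, ⌊(N : ℝ) * w.im⌋) (⌊(N : ℝ) * z.re⌋, ⌊(N : ℝ) * z.im⌋) m
    (by simp only; rcases abs_cases ⌊(N : ℝ) * w.re⌋ with h | h <;> omega)
    (by simp only; rcases abs_cases ⌊(N : ℝ) * w.im⌋ with h | h <;> omega)
    (hfl _ _ hre) (hfl _ _ him)
  refine key.trans ?_
  rw [mul_assoc, ← Real.mul_rpow (by positivity) hN0.le]
  apply mul_le_mul_of_nonneg_left _ hC.le
  apply Real.rpow_le_rpow (by positivity) _ (by norm_num)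
  linarith

end Pool.Agent.H79.ZF
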