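import Mathlib

set_option autoImplicit false

open MeasureTheory Finset

/-! # Riemann sums of a step function -/

namespace Pool.Agent.H79.ZF

lemma step_meas (F : ℤ → ℂ) : Measurable (fun s : ℝ => F ⌊s⌋) :=
  (measurable_from_top (f := F)).comp Int.measurable_floor

lemma step_int {F : ℤ → ℂ} {C : ℝ} (hC : ∀ m, ‖F m‖ ≤ C) (a b : ℝ) :
    IntervalIntegrable (fun s : ℝ => F ⌊s⌋) volume a b := by
  have hb : IntervalIntegrable (fun _ : ℝ => C) volume a b := _root_.intervalIntegrable_const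
  refine hb.mono_fun (step_meas F).aestronglyMeasurable ?_
  filter_upwards with s
  exact (hC _).trans (le_abs_self C)

lemma step_one (F : ℤ → ℂ) (m : ℤ) : ∫ s in (m : ℝ)..(m + 1 : ℝ), F ⌊s⌋ = F m := by
  have h : ∫ s in (m : ℝ)..(m + 1 : ℝ), F ⌊s⌋ = ∫ s in (m : ℝ)..(m + 1 : ℝ), F m := by
    apply intervalIntegral.integral_congr_ae
    have h0 : ∀ᵐ s : ℝ, s ≠ (m : ℝ) + 1 := by
      rw [ae_iff]
      simp
    filter_upwards [h0] with s hs hs2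
    rw [Set.uIoc_of_le (by linarith)] at hs2
    have : ⌊s⌋ = m := by
      rw [Int.floor_eq_iff]
      exact ⟨hs2.1.le, lt_of_le_of_ne hs2.2 hs⟩
    rw [this]
  rw [h]
  simp

lemma step_nat {F : ℤ → ℂ} {C : ℝ} (hC : ∀ m, ‖F m‖ ≤ C) (p : ℤ) (n : ℕ) :
    ∫ s in (p : ℝ)..(p + n : ℝ), F ⌊s⌋ = ∑ m ∈ Ico p (p + n), F m := by
  induction n with
  | zero => simp
  | succ n ih =>
    have e1 : Ico p (p + ((n + 1 : ℕ) : ℤ)) = insert (p + n) (Ico p (p + n)) := by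
      ext i; simp only [mem_insert, mem_Ico]; push_cast; omega
    rw [e1, sum_insert (by simp), add_comm (F (p + n)), ← ih]
    have h1 := step_one F (p + n)
    push_cast at h1 ⊢
    rw [← h1, show (p : ℝ) + (n + 1) = p + n + 1 by ring]
    exact (intervalIntegral.integral_add_adjacent_intervals (step_int hC _ _)
      (step_int hC _ _)).symm

lemma step_err {F : ℤ → ℂ} {C : ℝ} (hC : ∀ m, ‖F m‖ ≤ C) {a b : ℝ} (hab : a ≤ b) :
    ‖∑ m ∈ Ico ⌊a⌋ ⌊b⌋, F m - ∫ s in a..b, F ⌊s⌋‖ ≤ 2 * C := by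
  have hC0 : 0 ≤ C := (norm_nonneg _).trans (hC 0)
  obtain ⟨n, hn⟩ := Int.eq_ofNat_of_zero_le (sub_nonneg.2 (Int.floor_le_floor hab))
  have hb : ⌊b⌋ = ⌊a⌋ + n := by omega
  have h1 := step_nat hC ⌊a⌋ n
  rw [hb, ← h1]
  have h2 : ((⌊a⌋ : ℤ) : ℝ) + n = (⌊b⌋ : ℝ) := by rw [hb]; push_cast; ring
  rw [h2]
  have h3 : (∫ s in (⌊a⌋ : ℝ)..(⌊b⌋ : ℝ), F ⌊s⌋) - ∫ s in a..b, F ⌊s⌋ =
      (∫ s in (⌊a⌋ : ℝ)..a, F ⌊s⌋) - ∫ s in (⌊b⌋ : ℝ)..b, F ⌊s⌋ := by
    rw [← intervalIntegral.integral_add_adjacent_intervals (step_int hC (⌊a⌋ : ℝ) a)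
      (step_int hC a (⌊b⌋ : ℝ)), ← intervalIntegral.integral_add_adjacent_intervals
      (step_int hC a (⌊b⌋ : ℝ)) (step_int hC (⌊b⌋ : ℝ) b)]
    ring
  rw [h3]
  have h4 : ∀ c : ℝ, ‖∫ s in (⌊c⌋ : ℝ)..c, F ⌊s⌋‖ ≤ C := by
    intro c
    have := intervalIntegral.norm_integral_le_of_norm_le_const (a := (⌊c⌋ : ℝ)) (b := c)
      (f := fun s => F ⌊s⌋) (C := C) (fun s _ => hC _)
    have h5 : |c - ⌊c⌋| ≤ 1 := by
      rw [abs_le]
      constructor <;> linarith [Int.floor_le c, Int.lt_floor_add_one c]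
    nlinarith
  calc _ ≤ _ := norm_sub_le _ _
    _ ≤ C + C := add_le_add (h4 a) (h4 b)
    _ = _ := by ring

/-- **Riemann sums.** -/
theorem riem {L : ℝ} (hL : 0 < L) {F : ℤ → ℂ} {G : ℝ → ℂ} {a b ε C : ℝ} (hab : a ≤ b)
    (hG : ContinuousOn G (Set.Icc a b)) (hC0 : 0 ≤ C)
    (hC : ∀ m : ℤ, ⌊L * a⌋ ≤ m → m ≤ ⌊L * b⌋ → ‖F m‖ ≤ C)
    (hε : ∀ t ∈ Set.Icc a b, ‖F ⌊L * t⌋ - G t‖ ≤ ε) :
    ‖(1 / L : ℂ) * ∑ m ∈ Ico ⌊L * a⌋ ⌊L * b⌋, F m - ∫ t in a..b, G t‖ ≤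
      ε * (b - a) + 2 * C / L := by
  classical
  set F' : ℤ → ℂ := fun m => if ⌊L * a⌋ ≤ m ∧ m ≤ ⌊L * b⌋ then F m else 0 with hF'
  have hC' : ∀ m, ‖F' m‖ ≤ C := by
    intro m
    simp only [hF']
    split_ifs with h
    · exact hC m h.1 h.2
    · simpa using hC0
  have e1 : ∑ m ∈ Ico ⌊L * a⌋ ⌊L * b⌋, F m = ∑ m ∈ Ico ⌊L * a⌋ ⌊L * b⌋, F' m := by
    refine sum_congr rfl fun m hm => ?_
    rw [mem_Ico] at hm
    simp only [hF']
    rw [if_pos ⟨hm.1, hm.2.le⟩]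
  have hLab : L * a ≤ L * b := mul_le_mul_of_nonneg_left hab hL.le
  have h1 := step_err hC' hLab
  have h2 : ∫ t in a..b, F' ⌊L * t⌋ = (1 / L : ℂ) * ∫ s in (L * a)..(L * b), F' ⌊s⌋ := by
    have := intervalIntegral.integral_comp_mul_left (a := a) (b := b) (fun s => F' ⌊s⌋) hL.ne'
    rw [this]
    rw [Complex.real_smul]
    push_cast
    rw [one_div]
  have i1 : IntervalIntegrable (fun t : ℝ => F' ⌊L * t⌋) volume a b := by
    have hb : IntervalIntegrable (fun _ : ℝ => C) volume a b := _root_.intervalIntegrable_const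
    refine hb.mono_fun ((step_meas F').comp (measurable_const_mul L)).aestronglyMeasurable ?_
    filter_upwards with s
    exact (hC' _).trans (le_abs_self C)
  have i2 : IntervalIntegrable G volume a b := by
    apply ContinuousOn.intervalIntegrable
    rwa [Set.uIcc_of_le hab]
  have h3 : ‖(∫ t in a..b, F' ⌊L * t⌋) - ∫ t in a..b, G t‖ ≤ ε * (b - a) := by
    rw [← intervalIntegral.integral_sub i1 i2]
    have := intervalIntegral.norm_integral_le_of_norm_le_const (a := a) (b := b)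
      (f := fun t => F' ⌊L * t⌋ - G t) (C := ε) (by
        intro t ht
        rw [Set.uIoc_of_le hab] at ht
        have ht' : t ∈ Set.Icc a b := ⟨ht.1.le, ht.2⟩
        have := hε t ht'
        simp only [hF']
        rw [if_pos]
        · exact this
        · exact ⟨Int.floor_le_floor (mul_le_mul_of_nonneg_left ht'.1 hL.le),
            Int.floor_le_floor (mul_le_mul_of_nonneg_left ht'.2 hL.le)⟩)
    rwa [abs_of_nonneg (by linarith)] at this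
  rw [e1]
  have e2 : (1 / L : ℂ) * ∑ m ∈ Ico ⌊L * a⌋ ⌊L * b⌋, F' m - ∫ t in a..b, G t =
      (1 / L : ℂ) * (∑ m ∈ Ico ⌊L * a⌋ ⌊L * b⌋, F' m - ∫ s in (L * a)..(L * b), F' ⌊s⌋) +
        ((∫ t in a..b, F' ⌊L * t⌋) - ∫ t in a..b, G t) := by
    rw [h2]; ring
  rw [e2]
  have h4 : ‖(1 / L : ℂ)‖ = 1 / L := by
    rw [norm_div, norm_one, Complex.norm_real, Real.norm_of_nonneg hL.le]
  calc _ ≤ _ := norm_add_le _ _
    _ ≤ 1 / L * (2 * C) + ε * (b - a) := by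
        refine add_le_add ?_ h3
        rw [norm_mul, h4]
        exact mul_le_mul_of_nonneg_left h1 (by positivity)
    _ = _ := by ring

end Pool.Agent.H79.ZF
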