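import Mathlib
import Pool.Agent.H79.ZF.Dat
import Pool.Agent.H79.ZF.Riem

set_option autoImplicit false

open Complex Filter Topology Metric MeasureTheory

/-! # The limit of the scaled primitives is holomorphic -/

namespace Pool.Agent.H79.ZF

/-- boundary integral of a rectangle -/
noncomputable def bd (g : ℂ → ℂ) (x0 x1 y0 y1 : ℝ) : ℂ :=
  ((∫ x in x0..x1, g (x + y1 * I)) - ∫ x in x0..x1, g (x + y0 * I)) -
    I * ((∫ y in y0..y1, g (x1 + y * I)) - ∫ y in y0..y1, g (x0 + y * I))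

lemma bd_swap1 (g : ℂ → ℂ) (x0 x1 y0 y1 : ℝ) : bd g x1 x0 y0 y1 = -bd g x0 x1 y0 y1 := by
  unfold bd
  rw [intervalIntegral.integral_symm x0 x1, intervalIntegral.integral_symm x0 x1]
  ring

lemma bd_swap2 (g : ℂ → ℂ) (x0 x1 y0 y1 : ℝ) : bd g x0 x1 y1 y0 = -bd g x0 x1 y0 y1 := by
  unfold bd
  rw [intervalIntegral.integral_symm y0 y1, intervalIntegral.integral_symm y0 y1]
  ring

/-- a vanishing boundary integral for ordered rectangles suffices -/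
lemma conservative {g : ℂ → ℂ} {S : Set ℂ}
    (h : ∀ x0 x1 y0 y1 : ℝ, x0 ≤ x1 → y0 ≤ y1 →
      (∀ x ∈ Set.Icc x0 x1, ∀ y ∈ Set.Icc y0 y1, (x + y * I : ℂ) ∈ S) → bd g x0 x1 y0 y1 = 0) :
    IsConservativeOn g S := by
  intro z w hzw
  rw [← add_eq_zero_iff_eq_neg, wedgeIntegral_add_wedgeIntegral_eq]
  have e : (∫ x : ℝ in z.re..w.re, g (x + z.im * I)) - (∫ x : ℝ in z.re..w.re, g (x + w.im * I)) +
      I • (∫ y : ℝ in z.im..w.im, g (w.re + y * I)) - I • (∫ y : ℝ in z.im..w.im, g (z.re + y * I)) =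
      -bd g z.re w.re z.im w.im := by
    unfold bd
    simp only [smul_eq_mul]
    ring
  rw [e, neg_eq_zero]
  have hmem : ∀ x y : ℝ, x ∈ Set.uIcc z.re w.re → y ∈ Set.uIcc z.im w.im →
      (x + y * I : ℂ) ∈ S := by
    intro x y hx hy
    apply hzw
    unfold Rectangle
    rw [Complex.mem_reProdIm]
    simpa using ⟨hx, hy⟩
  rcases le_total z.re w.re with h1 | h1 <;> rcases le_total z.im w.im with h2 | h2
  · exact h _ _ _ _ h1 h2 fun x hx y hy => hmem x y (by rwa [Set.uIcc_of_le h1])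
      (by rwa [Set.uIcc_of_le h2])
  · rw [bd_swap2, neg_eq_zero]
    exact h _ _ _ _ h1 h2 fun x hx y hy => hmem x y (by rwa [Set.uIcc_of_le h1])
      (by rwa [Set.uIcc_of_ge h2])
  · rw [bd_swap1, neg_eq_zero]
    exact h _ _ _ _ h1 h2 fun x hx y hy => hmem x y (by rwa [Set.uIcc_of_ge h1])
      (by rwa [Set.uIcc_of_le h2])
  · rw [bd_swap1, bd_swap2, neg_neg]
    exact h _ _ _ _ h1 h2 fun x hx y hy => hmem x y (by rwa [Set.uIcc_of_ge h1])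
      (by rwa [Set.uIcc_of_ge h2])

/-- quantitative version at a fixed scale -/
lemma Dat.bd_le {C ε : ℝ} {N : ℕ} {H Hf : ℤ × ℤ → ℂ} (hD : Dat C ε N H Hf) (hC : 0 < C)
    (hN : 64 ≤ N) (hε0 : 0 ≤ ε) (hε : ε ≤ 1 / 2) {g : ℂ → ℂ}
    (hg : ContinuousOn g (ball 0 (1 / 16))) {η : ℝ}
    (hη : ∀ z ∈ ball (0 : ℂ) (1 / 16), ‖sc N H z - g z‖ ≤ η) {x0 x1 y0 y1 : ℝ} (hx : x0 ≤ x1)
    (hy : y0 ≤ y1) (hS : ∀ x ∈ Set.Icc x0 x1, ∀ y ∈ Set.Icc y0 y1,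
      (x + y * I : ℂ) ∈ ball (0 : ℂ) (1 / 16)) :
    ‖bd g x0 x1 y0 y1‖ ≤ 4 * (η + 2 * C / N) + (105 * ε * C + 3 / (N : ℝ) ^ (2 / 3 : ℝ)) := by
  have hN1 : 0 < N := by omega
  have hN0 : (0 : ℝ) < N := by exact_mod_cast hN1
  have hη0 : 0 ≤ η := (norm_nonneg _).trans (hη 0 (by simp))
  have mx0 : x0 ∈ Set.Icc x0 x1 := ⟨le_refl _, hx⟩
  have mx1 : x1 ∈ Set.Icc x0 x1 := ⟨hx, le_refl _⟩
  have my0 : y0 ∈ Set.Icc y0 y1 := ⟨le_refl _, hy⟩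
  have my1 : y1 ∈ Set.Icc y0 y1 := ⟨hy, le_refl _⟩
  have bx : ∀ x ∈ Set.Icc x0 x1, |x| < 1 / 16 := fun x hx' => by
    have := re_lt (hS x hx' y0 my0); simpa using this
  have by' : ∀ y ∈ Set.Icc y0 y1, |y| < 1 / 16 := fun y hy' => by
    have := im_lt (hS x0 mx0 y hy'); simpa using this
  have q : ∀ t : ℝ, |t| < 1 / 16 → 4 * |⌊(N : ℝ) * t⌋| ≤ (N : ℤ) := by
    intro t ht
    have := fl hN1 ht
    rcases abs_cases ⌊(N : ℝ) * t⌋ with h | h <;> omega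
  have q2 : ∀ s t : ℝ, |s| < 1 / 16 → |t| < 1 / 16 → ∀ m : ℤ, ⌊(N : ℝ) * s⌋ ≤ m →
      m ≤ ⌊(N : ℝ) * t⌋ → 4 * |m| ≤ (N : ℤ) := by
    intro s t hs ht m h1 h2
    have a1 := fl hN1 hs
    have a2 := fl hN1 ht
    rcases abs_cases m with h | h <;> omega
  -- horizontal sides
  have hor : ∀ y ∈ Set.Icc y0 y1, ‖(1 / (N : ℝ) : ℂ) *
      ∑ m ∈ Finset.Ico ⌊(N : ℝ) * x0⌋ ⌊(N : ℝ) * x1⌋, sH N H (m, ⌊(N : ℝ) * y⌋) -
        ∫ x in x0..x1, g (x + y * I)‖ ≤ η + 2 * C / N := by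
    intro y hy'
    have hc : ContinuousOn (fun x : ℝ => g (x + y * I)) (Set.Icc x0 x1) := by
      refine hg.comp (by fun_prop) ?_
      intro x hx'
      exact hS x hx' y hy'
    have := riem hN0 (F := fun m => sH N H (m, ⌊(N : ℝ) * y⌋)) (ε := η) (C := C) hx hc hC.le
      (fun m h1 h2 => hD.sH_le hN1 (q2 x0 x1 (bx _ mx0) (bx _ mx1) m h1 h2) (q y (by' y hy')))
      (fun t ht => by
        have := hη _ (hS t ht y hy')
        unfold sc at this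
        simpa using this)
    refine this.trans ?_
    have h1 : x1 - x0 ≤ 1 := by
      have b0 := abs_lt.1 (bx _ mx0)
      have b1 := abs_lt.1 (bx _ mx1)
      linarith
    nlinarith
  -- vertical sides
  have ver : ∀ x ∈ Set.Icc x0 x1, ‖(1 / (N : ℝ) : ℂ) *
      ∑ m ∈ Finset.Ico ⌊(N : ℝ) * y0⌋ ⌊(N : ℝ) * y1⌋, sH N H (⌊(N : ℝ) * x⌋, m) -
        ∫ y in y0..y1, g (x + y * I)‖ ≤ η + 2 * C / N := by
    intro x hx'
    have hc : ContinuousOn (fun y : ℝ => g (x + y * I)) (Set.Icc y0 y1) := by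
      refine hg.comp (by fun_prop) ?_
      intro y hy'
      exact hS x hx' y hy'
    have := riem hN0 (F := fun m => sH N H (⌊(N : ℝ) * x⌋, m)) (ε := η) (C := C) hy hc hC.le
      (fun m h1 h2 => hD.sH_le hN1 (q x (bx x hx')) (q2 y0 y1 (by' _ my0) (by' _ my1) m h1 h2))
      (fun t ht => by
        have := hη _ (hS x hx' t ht)
        unfold sc at this
        simpa using this)
    refine this.trans ?_
    have h1 : y1 - y0 ≤ 1 := by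
      have b0 := abs_lt.1 (by' _ my0)
      have b1 := abs_lt.1 (by' _ my1)
      linarith
    nlinarith
  have c := hD.ctr hC hN hε0 hε
    (Int.floor_le_floor (mul_le_mul_of_nonneg_left hx hN0.le))
    (Int.floor_le_floor (mul_le_mul_of_nonneg_left hy hN0.le))
    (fl hN1 (bx _ mx0)).1 (fl hN1 (bx _ mx1)).2 (fl hN1 (by' _ my0)).1 (fl hN1 (by' _ my1)).2
  have h1 := hor y1 my1
  have h2 := hor y0 my0
  have h3 := ver x1 mx1
  have h4 := ver x0 mx0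
  set A1 := (1 / (N : ℝ) : ℂ) *
      ∑ m ∈ Finset.Ico ⌊(N : ℝ) * x0⌋ ⌊(N : ℝ) * x1⌋, sH N H (m, ⌊(N : ℝ) * y1⌋)
  set A2 := (1 / (N : ℝ) : ℂ) *
      ∑ m ∈ Finset.Ico ⌊(N : ℝ) * x0⌋ ⌊(N : ℝ) * x1⌋, sH N H (m, ⌊(N : ℝ) * y0⌋)
  set A3 := (1 / (N : ℝ) : ℂ) *
      ∑ m ∈ Finset.Ico ⌊(N : ℝ) * y0⌋ ⌊(N : ℝ) * y1⌋, sH N H (⌊(N : ℝ) * x1⌋, m)
  set A4 := (1 / (N : ℝ) : ℂ) *
      ∑ m ∈ Finset.Ico ⌊(N : ℝ) * y0⌋ ⌊(N : ℝ) * y1⌋, sH N H (⌊(N : ℝ) * x0⌋, m)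
  unfold bd
  set B1 := ∫ x in x0..x1, g (x + y1 * I)
  set B2 := ∫ x in x0..x1, g (x + y0 * I)
  set B3 := ∫ y in y0..y1, g (x1 + y * I)
  set B4 := ∫ y in y0..y1, g (x0 + y * I)
  have e : (B1 - B2) - I * (B3 - B4) = ((A1 - A2) - I * (A3 - A4)) - (A1 - B1) + (A2 - B2) +
      I * (A3 - B3) - I * (A4 - B4) := by ring
  rw [e]
  have nI : ∀ x : ℂ, ‖I * x‖ = ‖x‖ := fun x => by rw [norm_mul, Complex.norm_I, one_mul]
  calc _ ≤ ‖((A1 - A2) - I * (A3 - A4)) - (A1 - B1) + (A2 - B2) + I * (A3 - B3)‖ +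
        ‖I * (A4 - B4)‖ := norm_sub_le _ _
    _ ≤ (‖((A1 - A2) - I * (A3 - A4)) - (A1 - B1) + (A2 - B2)‖ + ‖I * (A3 - B3)‖) +
        ‖I * (A4 - B4)‖ := by gcongr; exact norm_add_le _ _
    _ ≤ ((‖((A1 - A2) - I * (A3 - A4)) - (A1 - B1)‖ + ‖A2 - B2‖) + ‖I * (A3 - B3)‖) +
        ‖I * (A4 - B4)‖ := by gcongr; exact norm_add_le _ _
    _ ≤ (((‖(A1 - A2) - I * (A3 - A4)‖ + ‖A1 - B1‖) + ‖A2 - B2‖) + ‖I * (A3 - B3)‖) +
        ‖I * (A4 - B4)‖ := by gcongr; exact norm_sub_le _ _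
    _ ≤ _ := by rw [nI, nI]; linarith

end Pool.Agent.H79.ZF
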