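import Mathlib

set_option autoImplicit false

open Complex Metric Filter Topology Asymptotics

/-! # A bounded holomorphic function: the second difference of N1 -/

namespace Pool.Agent.H79.ZF

theorem second {g : ℂ → ℂ} {C : ℝ} (hg : DifferentiableOn ℂ g (ball 0 (1 / 16)))
    (hC : ∀ z ∈ ball (0 : ℂ) (1 / 16), ‖g z‖ ≤ C) (h0 : g 0 = 0) {z : ℂ}
    (hz : z ∈ ball (0 : ℂ) (1 / 32)) :
    ‖g (z * (1 + I)) - I * g (z * (1 - I))‖ ≤ 2 * C * (32 * ‖z‖) ^ 2 := by
  have n1 : ‖(1 + I : ℂ)‖ ≤ 2 := (norm_add_le _ _).trans (by simp; norm_num)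
  have n2 : ‖(1 - I : ℂ)‖ ≤ 2 := (norm_sub_le _ _).trans (by simp; norm_num)
  have m1 : ∀ w ∈ ball (0 : ℂ) (1 / 32), w * (1 + I) ∈ ball (0 : ℂ) (1 / 16) := by
    intro w hw
    rw [mem_ball_zero_iff] at hw ⊢
    rw [norm_mul]
    nlinarith [norm_nonneg w, norm_nonneg (1 + I : ℂ)]
  have m2 : ∀ w ∈ ball (0 : ℂ) (1 / 32), w * (1 - I) ∈ ball (0 : ℂ) (1 / 16) := by
    intro w hw
    rw [mem_ball_zero_iff] at hw ⊢
    rw [norm_mul]
    nlinarith [norm_nonneg w, norm_nonneg (1 - I : ℂ)]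
  set k : ℂ → ℂ := fun w => g (w * (1 + I)) - I * g (w * (1 - I)) with hk
  have hk0 : k 0 = 0 := by simp [hk, h0]
  have d : DifferentiableOn ℂ k (ball 0 (1 / 32)) := by
    apply DifferentiableOn.sub
    · exact hg.comp (by fun_prop) m1
    · exact (hg.comp (g := g) (f := fun w => w * (1 - I)) (by fun_prop) m2).const_mul I
  have maps : Set.MapsTo k (ball 0 (1 / 32)) (closedBall (k 0) (2 * C)) := by
    intro w hw
    rw [hk0, mem_closedBall_zero_iff]
    calc ‖k w‖ ≤ ‖g (w * (1 + I))‖ + ‖I * g (w * (1 - I))‖ := norm_sub_le _ _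
      _ = ‖g (w * (1 + I))‖ + ‖g (w * (1 - I))‖ := by rw [norm_mul, Complex.norm_I, one_mul]
      _ ≤ C + C := add_le_add (hC _ (m1 w hw)) (hC _ (m2 w hw))
      _ = 2 * C := by ring
  have hg0 : HasDerivAt g (deriv g 0) 0 :=
    (hg.differentiableAt (ball_mem_nhds 0 (by norm_num))).hasDerivAt
  have l1 : HasDerivAt (fun w : ℂ => w * (1 + I)) (1 + I) 0 := by
    simpa using (hasDerivAt_id (0 : ℂ)).mul_const (1 + I)
  have l2 : HasDerivAt (fun w : ℂ => w * (1 - I)) (1 - I) 0 := by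
    simpa using (hasDerivAt_id (0 : ℂ)).mul_const (1 - I)
  have c1 : HasDerivAt (fun w : ℂ => g (w * (1 + I))) (deriv g 0 * (1 + I)) 0 := by
    refine HasDerivAt.comp (0 : ℂ) (h₂ := g) (h := fun w : ℂ => w * (1 + I)) ?_ l1
    simpa using hg0
  have c2 : HasDerivAt (fun w : ℂ => g (w * (1 - I))) (deriv g 0 * (1 - I)) 0 := by
    refine HasDerivAt.comp (0 : ℂ) (h₂ := g) (h := fun w : ℂ => w * (1 - I)) ?_ l2
    simpa using hg0
  have hd : HasDerivAt k 0 0 := by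
    have := c1.sub (c2.const_mul I)
    have e : deriv g 0 * (1 + I) - I * (deriv g 0 * (1 - I)) = 0 := by
      ring_nf
      rw [Complex.I_sq]
      ring
    rw [e] at this
    exact this
  have ho : (k · - k 0) =o[𝓝 0] (fun w : ℂ => ‖w - 0‖ ^ 1) := by
    rw [hasDerivAt_iff_isLittleO] at hd
    simp only [smul_zero, sub_zero, pow_one] at hd ⊢
    exact hd.norm_right
  have := dist_le_mul_div_pow_of_mapsTo_ball_of_isLittleO d maps ho hz
  rw [hk0, dist_zero_right, dist_zero_right] at this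
  calc ‖k z‖ ≤ 2 * C * (‖z‖ / (1 / 32)) ^ (1 + 1) := this
    _ = _ := by ring

end Pool.Agent.H79.ZF
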