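import Mathlib
import Pool.Agent.H79.ZF.Holo
import Pool.Agent.H79.ZF.Second

set_option autoImplicit false

open Complex Filter Topology Metric

/-! # Relative Cauchy-Riemann relations and the a priori bound give N1, abstract form -/

namespace Pool.Agent.H79.ZF

theorem limit_holo {C : ℝ} (hC : 0 < C) {U : Ultrafilter ℕ} {N : ℕ → ℕ} {e : ℕ → ℝ}
    {H Hf : ℕ → ℤ × ℤ → ℂ} (hN : Tendsto N (U : Filter ℕ) atTop)
    (he : Tendsto e (U : Filter ℕ) (𝓝 0)) (he0 : ∀ j, 0 ≤ e j)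
    (hD : ∀ j, Dat C (e j) (N j) (H j) (Hf j)) :
    ∃ g : ℂ → ℂ, ULim U (ball 0 (1 / 16)) (fun j => sc (N j) (H j)) g ∧
      DifferentiableOn ℂ g (ball 0 (1 / 16)) ∧ g 0 = 0 ∧ ∀ z ∈ ball (0 : ℂ) (1 / 16), ‖g z‖ ≤ C := by
  have hN64 : ∀ᶠ j in (U : Filter ℕ), 64 ≤ N j := hN.eventually_ge_atTop 64
  have hNR : Tendsto (fun j => (N j : ℝ)) (U : Filter ℕ) atTop :=
    tendsto_natCast_atTop_atTop.comp hN
  have hb : ∀ᶠ j in (U : Filter ℕ), ∀ z ∈ ball (0 : ℂ) (1 / 16), ‖sc (N j) (H j) z‖ ≤ C :=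
    hN64.mono fun j hj z hz => (hD j).sc_le hj hz
  have heq : AEq U (ball 0 (1 / 16)) (fun j => sc (N j) (H j)) := by
    intro η hη
    set t : ℝ := η / C with ht
    have ht0 : 0 < t := by positivity
    set δ : ℝ := min (1 / 8) (t ^ (3 / 2 : ℝ) / 8) with hδ
    have hδ0 : 0 < δ := lt_min (by norm_num) (by positivity)
    refine ⟨δ, hδ0, ?_⟩
    have h5 : ∀ᶠ j in (U : Filter ℕ), 5 / (4 * δ) ≤ (N j : ℝ) := hNR.eventually_ge_atTop _
    filter_upwards [hN64, h5] with j h1 h2 z hz w hw hd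
    have h3 : 5 ≤ 4 * δ * (N j : ℝ) := by
      rw [div_le_iff₀ (by positivity)] at h2
      linarith
    refine ((hD j).sc_sub hC hδ0 (min_le_left _ _) h1 h3 hz hw hd).trans ?_
    have h4 : (8 * δ) ^ (2 / 3 : ℝ) ≤ t := by
      have a1 : 8 * δ ≤ t ^ (3 / 2 : ℝ) := by
        have := min_le_right (1 / 8) (t ^ (3 / 2 : ℝ) / 8)
        rw [← hδ] at this
        linarith
      calc (8 * δ) ^ (2 / 3 : ℝ) ≤ (t ^ (3 / 2 : ℝ)) ^ (2 / 3 : ℝ) :=
            Real.rpow_le_rpow (by positivity) a1 (by norm_num)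
        _ = t := by
            rw [← Real.rpow_mul ht0.le]
            norm_num
    calc C * (8 * δ) ^ (2 / 3 : ℝ) ≤ C * t := mul_le_mul_of_nonneg_left h4 hC.le
      _ = η := by rw [ht]; field_simp
  have hS : TotallyBounded (ball (0 : ℂ) (1 / 16)) :=
    (isCompact_closedBall (0 : ℂ) (1 / 16)).totallyBounded.subset ball_subset_closedBall
  obtain ⟨g, hg⟩ := exists_lim hS hb heq
  have hcont : ContinuousOn g (ball 0 (1 / 16)) := hg.continuousOn heq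
  have hcons : IsConservativeOn g (ball 0 (1 / 16)) := by
    apply conservative
    intro x0 x1 y0 y1 hx hy hS'
    have hle : ∀ η > 0, ‖bd g x0 x1 y0 y1‖ ≤ 4 * (η + 0) + (0 + 0) := by
      intro η hη
      have t1 : Tendsto (fun j => 2 * C / (N j : ℝ)) (U : Filter ℕ) (𝓝 0) :=
        hNR.const_div_atTop _
      have t2 : Tendsto (fun j => 105 * e j * C) (U : Filter ℕ) (𝓝 0) := by
        have := (he.const_mul 105).mul_const C
        simpa using this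
      have t3 : Tendsto (fun j => 3 / (N j : ℝ) ^ (2 / 3 : ℝ)) (U : Filter ℕ) (𝓝 0) :=
        ((tendsto_rpow_atTop (show (0 : ℝ) < 2 / 3 by norm_num)).comp hNR).const_div_atTop _
      have t4 : Tendsto (fun j => 4 * (η + 2 * C / (N j : ℝ)) + (105 * e j * C +
          3 / (N j : ℝ) ^ (2 / 3 : ℝ))) (U : Filter ℕ) (𝓝 (4 * (η + 0) + (0 + 0))) :=
        ((t1.const_add η).const_mul 4).add (t2.add t3)
      refine ge_of_tendsto t4 ?_
      have he2 : ∀ᶠ j in (U : Filter ℕ), e j ≤ 1 / 2 :=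
        he.eventually_le_const (by norm_num)
      filter_upwards [hN64, he2, hg η hη] with j a1 a2 a3
      exact (hD j).bd_le hC a1 (he0 j) a2 hcont a3 hx hy hS'
    have h0 : ‖bd g x0 x1 y0 y1‖ ≤ 0 := by
      apply le_of_forall_pos_le_add
      intro η hη
      have := hle (η / 4) (by positivity)
      linarith
    exact norm_le_zero_iff.1 h0
  refine ⟨g, hg, ?_, ?_, ?_⟩
  · exact (hcons.isExactOn_ball hcont).differentiableOn isOpen_ball
  · have h0 : ‖g 0‖ ≤ 0 := by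
      apply le_of_forall_pos_le_add
      intro η hη
      obtain ⟨j, hj⟩ := (hg η hη).exists
      have := hj 0 (by simp)
      have e0 : sc (N j) (H j) 0 = 0 := by
        unfold sc sH
        have := (hD j).zero
        simp only [Complex.zero_re, Complex.zero_im, mul_zero, Int.floor_zero]
        rw [show ((0 : ℤ), (0 : ℤ)) = 0 from rfl, this, zero_div]
      beta_reduce at this
      rw [e0, zero_sub, norm_neg] at this
      linarith
    exact norm_le_zero_iff.1 h0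
  · intro z hz
    apply le_of_forall_pos_le_add
    intro η hη
    obtain ⟨j, hj, hj2⟩ := ((hg η hη).and hb).exists
    have a1 := hj z hz
    have a2 := hj2 z hz
    calc ‖g z‖ = ‖sc (N j) (H j) z - (sc (N j) (H j) z - g z)‖ := by ring_nf
      _ ≤ ‖sc (N j) (H j) z‖ + ‖sc (N j) (H j) z - g z‖ := norm_sub_le _ _
      _ ≤ C + η := add_le_add a2 a1

/-- **N1 in abstract form.** -/
theorem abs_N1 {C : ℝ} (hC : 0 < C) {ε : ℝ} (hε : 0 < ε) : ∃ ρ0 : ℝ, 0 < ρ0 ∧ ∀ ρ1 : ℝ, 0 < ρ1 →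
    ∃ ε' : ℝ, 0 < ε' ∧ ∃ N0 : ℕ, ∀ N n : ℕ, N0 ≤ N → ρ1 * N ≤ n → (n : ℝ) ≤ ρ0 * N →
    ∀ H Hf : ℤ × ℤ → ℂ, Dat C ε' N H Hf →
    ‖H ((n : ℤ), (n : ℤ)) - I * H ((n : ℤ), -(n : ℤ))‖ ≤ ε * n * (N : ℝ) ^ (-(1 / 3) : ℝ) := by
  set ρ0 : ℝ := min (1 / 64) (ε / (8192 * C)) with hρ0
  have hρ0pos : 0 < ρ0 := lt_min (by norm_num) (by positivity)
  refine ⟨ρ0, hρ0pos, fun ρ1 hρ1 => ?_⟩
  by_contra hcon
  push Not at hcon
  have hex : ∀ j : ℕ, ∃ N n : ℕ, j ≤ N ∧ ρ1 * N ≤ n ∧ (n : ℝ) ≤ ρ0 * N ∧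
      ∃ H Hf : ℤ × ℤ → ℂ, Dat C (1 / ((j : ℝ) + 1)) N H Hf ∧
      ε * n * (N : ℝ) ^ (-(1 / 3) : ℝ) < ‖H ((n : ℤ), (n : ℤ)) - I * H ((n : ℤ), -(n : ℤ))‖ := by
    intro j
    obtain ⟨N, n, h1, h2, h3, H, Hf, h4, h5⟩ := hcon (1 / ((j : ℝ) + 1)) (by positivity) j
    exact ⟨N, n, h1, h2, h3, H, Hf, h4, h5⟩
  choose N n hjN hn1 hn2 H Hf hD hbad using hex
  set U : Ultrafilter ℕ := hyperfilter ℕ with hU
  have hUle : (U : Filter ℕ) ≤ atTop := by
    rw [hU, ← Nat.cofinite_eq_atTop]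
    exact hyperfilter_le_cofinite
  have hNt : Tendsto N (U : Filter ℕ) atTop :=
    (tendsto_atTop_mono hjN tendsto_id).mono_left hUle
  have het : Tendsto (fun j : ℕ => 1 / ((j : ℝ) + 1)) (U : Filter ℕ) (𝓝 0) :=
    tendsto_one_div_add_atTop_nhds_zero_nat.mono_left hUle
  obtain ⟨g, hg, hdiff, hg0, hgC⟩ := limit_holo hC hNt het (fun j => by positivity) hD
  have hη : 0 < ε * ρ1 / 8 := by positivity
  obtain ⟨j, hj1, hj2⟩ := ((hg (ε * ρ1 / 8) hη).and (hNt.eventually_ge_atTop 64)).exists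
  have hN0 : (0 : ℝ) < N j := by exact_mod_cast (show 0 < N j by omega)
  set t : ℝ := (n j : ℝ) / N j with ht
  have ht0 : ρ1 ≤ t := by rw [ht, le_div_iff₀ hN0]; exact hn1 j
  have ht1 : t ≤ ρ0 := by rw [ht, div_le_iff₀ hN0]; exact hn2 j
  have htpos : 0 < t := hρ1.trans_le ht0
  have ht2 : t ≤ 1 / 64 := ht1.trans (min_le_left _ _)
  have ht3 : t ≤ ε / (8192 * C) := ht1.trans (min_le_right _ _)
  have hNt' : (N j : ℝ) * t = n j := by rw [ht]; field_simp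
  have ntn : ‖(t : ℂ)‖ = t := by rw [Complex.norm_real, Real.norm_of_nonneg htpos.le]
  have hz : (t : ℂ) ∈ ball (0 : ℂ) (1 / 32) := by
    rw [mem_ball_zero_iff, ntn]; linarith
  have hsec := second hdiff hgC hg0 hz
  rw [ntn] at hsec
  have n1 : ‖(1 + I : ℂ)‖ ≤ 2 := (norm_add_le _ _).trans (by simp; norm_num)
  have n2 : ‖(1 - I : ℂ)‖ ≤ 2 := (norm_sub_le _ _).trans (by simp; norm_num)
  have m1 : (t : ℂ) * (1 + I) ∈ ball (0 : ℂ) (1 / 16) := by
    rw [mem_ball_zero_iff, norm_mul, ntn]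
    nlinarith [norm_nonneg (1 + I : ℂ)]
  have m2 : (t : ℂ) * (1 - I) ∈ ball (0 : ℂ) (1 / 16) := by
    rw [mem_ball_zero_iff, norm_mul, ntn]
    nlinarith [norm_nonneg (1 - I : ℂ)]
  have e1 : sc (N j) (H j) ((t : ℂ) * (1 + I)) = sH (N j) (H j) ((n j : ℤ), (n j : ℤ)) := by
    unfold sc
    have a1 : ((t : ℂ) * (1 + I)).re = t := by simp
    have a2 : ((t : ℂ) * (1 + I)).im = t := by simp
    rw [a1, a2, hNt']
    simp
  have e2 : sc (N j) (H j) ((t : ℂ) * (1 - I)) = sH (N j) (H j) ((n j : ℤ), -(n j : ℤ)) := by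
    unfold sc
    have a1 : ((t : ℂ) * (1 - I)).re = t := by simp
    have a2 : ((t : ℂ) * (1 - I)).im = -t := by simp
    rw [a1, a2, mul_neg, hNt']
    have a3 : ⌊-(n j : ℝ)⌋ = -(n j : ℤ) := by
      have : -(n j : ℝ) = ((-(n j : ℤ) : ℤ) : ℝ) := by push_cast; ring
      rw [this, Int.floor_intCast]
    rw [a3]
    simp
  have b1 := hj1 _ m1
  have b2 := hj1 _ m2
  beta_reduce at b1 b2
  rw [e1] at b1
  rw [e2] at b2
  set P : ℝ := (N j : ℝ) ^ (2 / 3 : ℝ) with hP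
  have hPpos : 0 < P := Real.rpow_pos_of_pos hN0 _
  set s1 := sH (N j) (H j) ((n j : ℤ), (n j : ℤ)) with hs1
  set s2 := sH (N j) (H j) ((n j : ℤ), -(n j : ℤ)) with hs2
  have c1 : ‖s1 - I * s2‖ ≤ ε * t / 2 + ε * ρ1 / 8 + ε * ρ1 / 8 := by
    have e3 : s1 - I * s2 = (g ((t : ℂ) * (1 + I)) - I * g ((t : ℂ) * (1 - I))) +
        (s1 - g ((t : ℂ) * (1 + I))) - I * (s2 - g ((t : ℂ) * (1 - I))) := by ring
    rw [e3]
    calc _ ≤ ‖(g ((t : ℂ) * (1 + I)) - I * g ((t : ℂ) * (1 - I))) +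
        (s1 - g ((t : ℂ) * (1 + I)))‖ + ‖I * (s2 - g ((t : ℂ) * (1 - I)))‖ := norm_sub_le _ _
      _ ≤ (‖g ((t : ℂ) * (1 + I)) - I * g ((t : ℂ) * (1 - I))‖ +
        ‖s1 - g ((t : ℂ) * (1 + I))‖) + ‖I * (s2 - g ((t : ℂ) * (1 - I)))‖ := by
          gcongr; exact norm_add_le _ _
      _ ≤ (ε * t / 2 + ε * ρ1 / 8) + ε * ρ1 / 8 := by
          refine add_le_add (add_le_add (hsec.trans ?_) b1) ?_
          · have : 2 * C * (32 * t) ^ 2 = 2048 * C * t * t := by ring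
            rw [this]
            have h7 : 2048 * C * t ≤ ε / 2 := by
              rw [le_div_iff₀ (by positivity)] at ht3
              linarith
            nlinarith
          · rw [norm_mul, Complex.norm_I, one_mul]; exact b2
      _ = _ := by ring
  have c2 : ‖H j ((n j : ℤ), (n j : ℤ)) - I * H j ((n j : ℤ), -(n j : ℤ))‖ =
      ‖s1 - I * s2‖ * P := by
    have : s1 - I * s2 = (H j ((n j : ℤ), (n j : ℤ)) - I * H j ((n j : ℤ), -(n j : ℤ))) / (P : ℂ) := by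
      rw [hs1, hs2]; unfold sH; rw [← hP]; ring
    rw [this, norm_div, Complex.norm_real, Real.norm_of_nonneg hPpos.le]
    field_simp
  have c3 : ε * (n j) * (N j : ℝ) ^ (-(1 / 3) : ℝ) = ε * t * P := by
    have : (N j : ℝ) ^ (-(1 / 3) : ℝ) = P / N j := by
      rw [hP, eq_div_iff hN0.ne', ← Real.rpow_add_one hN0.ne']
      norm_num
    rw [this, ht]
    field_simp
  have hb := hbad j
  rw [c3, c2] at hb
  have hb2 : ε * t < ‖s1 - I * s2‖ := lt_of_mul_lt_mul_right hb hPpos.le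
  nlinarith [mul_le_mul_of_nonneg_left ht0 hε.le, mul_pos hε htpos]

end Pool.Agent.H79.ZF
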