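import Mathlib
import Pool.Agent.Q1.M4.Inputs
import Pool.Agent.H79.ZF.Abs

set_option autoImplicit false

open Finset

/-! # Relative Cauchy-Riemann relations of the environments and AP give N1 -/

namespace Pool.Agent.H79.ZF

open Pool.Agent.Q1 Pool.Agent.H75.Perc Pool.Agent.H75.TwoArm Pool.Agent.H99.NC

/-- dual and primal increment of the horizontal edge from `(x, y)`, by the four corner increments -/
noncomputable def dh (X : Env) (x y : ℤ) : ℂ := X.inc (2 * x + 1, 2 * y) - X.inc (2 * x + 1, 2 * y + 1)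
noncomputable def ph (X : Env) (x y : ℤ) : ℂ := X.inc (2 * x + 2, 2 * y) - X.inc (2 * x + 1, 2 * y)

/-- dual and primal increment of the vertical edge from `(x, y)` -/
noncomputable def dv (X : Env) (x y : ℤ) : ℂ := X.inc (2 * x + 1, 2 * y + 1) - X.inc (2 * x, 2 * y + 1)
noncomputable def pv (X : Env) (x y : ℤ) : ℂ := X.inc (2 * x, 2 * y + 2) - X.inc (2 * x, 2 * y + 1)

/-- **Relative Cauchy-Riemann relations.** In the centre of a large box the dual increment of every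
edge is `I` times its primal increment, up to a small relative error and a negligible absolute error. -/
def RelD (K : Env → Prop) : Prop := ∀ ε : ℝ, 0 < ε → ∃ N0 : ℕ, ∀ N : ℕ, N0 ≤ N → ∀ X, K X →
  ∀ a b : ℤ, Bx (a - N) (a + N) (b - N) (b + N) ⊆ X.E →
  Rl ε (1 / (N : ℝ) ^ 3) (dh X a b) (ph X a b) ∧ Rl ε (1 / (N : ℝ) ^ 3) (dv X a b) (pv X a b)

lemma Bx_sub {a b c d a' b' c' d' : ℤ} (h1 : a ≤ a') (h2 : b' ≤ b) (h3 : c ≤ c') (h4 : d' ≤ d) :
    Bx a' b' c' d' ⊆ Bx a b c d := by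
  intro e he
  rw [mem_Bx] at he ⊢
  omega

/-- increments of the primitive at a horizontal edge -/
lemma prim_h {X : Env} {a b c d : ℤ} {Hv Hf : ℤ × ℤ → ℂ} (hP : X.Prim a b c d Hv Hf) {x y : ℤ}
    (h1 : a ≤ x) (h2 : x + 1 ≤ b) (h3 : c ≤ y) (h4 : y ≤ d) :
    Hf (x + 1, y + 1) - Hf (x + 1, y) = dh X x y ∧ Hv (x + 1, y) - Hv (x, y) = ph X x y ∧
      Hv (x, y) - Hf (x + 1, y) = X.inc (2 * x + 1, 2 * y) := by
  have hp := hP (2 * x + 1, 2 * y) (by rw [mem_Bx]; simp only; omega)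
  obtain ⟨e1, e2, e3, e4⟩ := corners_h x y
  unfold PrimAt at hp
  rw [e1, e2, e3, e4] at hp
  have v1 : vx (2 * x + 1, 2 * y) = (x, y) ∧ fi (2 * x + 1, 2 * y) = (x + 1, y) := by
    unfold vx fi; constructor <;> ext <;> simp only <;> omega
  have v3 : vx (2 * x + 1, 2 * y + 1) = (x, y) ∧
      fi (2 * x + 1, 2 * y + 1) = (x + 1, y + 1) := by
    unfold vx fi; constructor <;> ext <;> simp only <;> omega
  have v4 : vx (2 * x + 2, 2 * y) = (x + 1, y) ∧ fi (2 * x + 2, 2 * y) = (x + 1, y) := by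
    unfold vx fi; constructor <;> ext <;> simp only <;> omega
  have k1 := hp (2 * x + 1, 2 * y) (Or.inl rfl)
  have k3 := hp (2 * x + 1, 2 * y + 1) (Or.inr (Or.inr (Or.inl rfl)))
  have k4 := hp (2 * x + 2, 2 * y) (Or.inr (Or.inr (Or.inr rfl)))
  rw [v1.1, v1.2] at k1
  rw [v3.1, v3.2] at k3
  rw [v4.1, v4.2] at k4
  unfold dh ph
  rw [← k1, ← k3, ← k4]
  refine ⟨by ring, by ring, rfl⟩

/-- increments of the primitive at a vertical edge -/
lemma prim_v {X : Env} {a b c d : ℤ} {Hv Hf : ℤ × ℤ → ℂ} (hP : X.Prim a b c d Hv Hf) {x y : ℤ}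
    (h1 : a ≤ x) (h2 : x ≤ b) (h3 : c ≤ y) (h4 : y + 1 ≤ d) :
    Hf (x, y + 1) - Hf (x + 1, y + 1) = dv X x y ∧ Hv (x, y + 1) - Hv (x, y) = pv X x y := by
  have hp := hP (2 * x, 2 * y + 1) (by rw [mem_Bx]; simp only; omega)
  obtain ⟨e1, e2, e3, e4⟩ := corners_v x y
  unfold PrimAt at hp
  rw [e1, e2, e3, e4] at hp
  have v1 : vx (2 * x, 2 * y + 2) = (x, y + 1) ∧ fi (2 * x, 2 * y + 2) = (x, y + 1) := by
    unfold vx fi; constructor <;> ext <;> simp only <;> omega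
  have v2 : vx (2 * x + 1, 2 * y + 1) = (x, y) ∧ fi (2 * x + 1, 2 * y + 1) = (x + 1, y + 1) := by
    unfold vx fi; constructor <;> ext <;> simp only <;> omega
  have v4 : vx (2 * x, 2 * y + 1) = (x, y) ∧ fi (2 * x, 2 * y + 1) = (x, y + 1) := by
    unfold vx fi; constructor <;> ext <;> simp only <;> omega
  have k1 := hp (2 * x, 2 * y + 2) (Or.inl rfl)
  have k2 := hp (2 * x + 1, 2 * y + 1) (Or.inr (Or.inl rfl))
  have k4 := hp (2 * x, 2 * y + 1) (Or.inr (Or.inr (Or.inr rfl)))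
  rw [v1.1, v1.2] at k1
  rw [v2.1, v2.2] at k2
  rw [v4.1, v4.2] at k4
  unfold dv pv
  rw [← k1, ← k2, ← k4]
  refine ⟨by ring, by ring⟩

/-- the box data of an environment -/
lemma dat_of_env {K : Env → Prop} {C : ℝ} (hAP : ∀ X, K X → ∀ (a b : ℤ) (N : ℕ),
      Bx (a - N) (a + N) (b - N) (b + N) ⊆ X.E → ∀ Hv Hf,
      X.Prim (a - N) (a + N) (b - N) (b + N) Hv Hf → ∀ u v : ℤ × ℤ, Qt a N u.1 → Qt b N u.2 →
      Qt a N v.1 → Qt b N v.2 → ‖Hv u - Hv v‖ ≤ C * (N : ℝ) ^ (2 / 3 : ℝ))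
    {ε : ℝ} {N1 : ℕ} (hR : ∀ N : ℕ, N1 ≤ N → ∀ X, K X →
      ∀ a b : ℤ, Bx (a - N) (a + N) (b - N) (b + N) ⊆ X.E →
      Rl ε (1 / (N : ℝ) ^ 3) (dh X a b) (ph X a b) ∧ Rl ε (1 / (N : ℝ) ^ 3) (dv X a b) (pv X a b))
    {X : Env} (hX : K X) {a b : ℤ} {N : ℕ} (hN : 2 * N1 + 64 ≤ N)
    (hB : Bx (a - N) (a + N) (b - N) (b + N) ⊆ X.E) {Hv Hf : ℤ × ℤ → ℂ}
    (hP : X.Prim (a - N) (a + N) (b - N) (b + N) Hv Hf) :
    Dat C ε N (fun u => Hv (a + u.1, b + u.2) - Hv (a, b))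
      (fun u => Hf (a + u.1, b + u.2) - Hv (a, b)) := by
  have hrel : ∀ u : ℤ × ℤ, 4 * |u.1| ≤ (N : ℤ) → 4 * |u.2| ≤ (N : ℤ) →
      Bx (a + u.1 - (N / 2 : ℕ)) (a + u.1 + (N / 2 : ℕ)) (b + u.2 - (N / 2 : ℕ))
        (b + u.2 + (N / 2 : ℕ)) ⊆ X.E := by
    intro u h1 h2
    refine (Bx_sub ?_ ?_ ?_ ?_).trans hB
    · rcases abs_cases u.1 with h | h <;> omega
    · rcases abs_cases u.1 with h | h <;> omega
    · rcases abs_cases u.2 with h | h <;> omega
    · rcases abs_cases u.2 with h | h <;> omega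
  have hκ : 1 / ((N / 2 : ℕ) : ℝ) ^ 3 ≤ 1 / (N : ℝ) ^ 2 := by
    have h1 : N ≤ 4 * (N / 2) := by omega
    have h2 : (N : ℝ) ≤ 4 * ((N / 2 : ℕ) : ℝ) := by exact_mod_cast h1
    have h3 : (32 : ℝ) ≤ ((N / 2 : ℕ) : ℝ) := by
      have : 32 ≤ N / 2 := by omega
      exact_mod_cast this
    have h4 : (0 : ℝ) < N := by
      have : 0 < N := by omega
      exact_mod_cast this
    apply one_div_le_one_div_of_le (by positivity)
    set m := ((N / 2 : ℕ) : ℝ)
    nlinarith [mul_nonneg (sub_nonneg.2 h2) (sub_nonneg.2 h2), sq_nonneg m,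
      mul_nonneg (sq_nonneg m) (sub_nonneg.2 h3)]
  refine ⟨?_, ?_, ?_, ?_, ?_⟩
  · simp
  · intro p q m h1 h2 h3 h4
    have hsub : Bx (a + p.1 - m) (a + p.1 + m) (b + p.2 - m) (b + p.2 + m) ⊆
        Bx (a - N) (a + N) (b - N) (b + N) := by
      apply Bx_sub
      · rcases abs_cases p.1 with h | h <;> omega
      · rcases abs_cases p.1 with h | h <;> omega
      · rcases abs_cases p.2 with h | h <;> omega
      · rcases abs_cases p.2 with h | h <;> omega
    have := hAP X hX (a + p.1) (b + p.2) m (hsub.trans hB) Hv Hf (fun e he => hP e (hsub he))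
      (a + q.1, b + q.2) (a + p.1, b + p.2)
      (by unfold Qt; simp only; rw [show a + q.1 - (a + p.1) = q.1 - p.1 by ring]; exact h3)
      (by unfold Qt; simp only; rw [show b + q.2 - (b + p.2) = q.2 - p.2 by ring]; exact h4)
      (by unfold Qt; simp) (by unfold Qt; simp)
    have e : (Hv (a + q.1, b + q.2) - Hv (a, b)) - (Hv (a + p.1, b + p.2) - Hv (a, b)) =
        Hv (a + q.1, b + q.2) - Hv (a + p.1, b + p.2) := by ring
    simp only [e]
    exact this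
  · intro x y h1 h2
    have hx : -(N : ℤ) ≤ 4 * x ∧ 4 * x ≤ N := by rcases abs_cases x with h | h <;> omega
    have hy : -(N : ℤ) ≤ 4 * y ∧ 4 * y ≤ N := by rcases abs_cases y with h | h <;> omega
    have := (prim_h hP (x := a + x) (y := b + y) (by omega) (by omega) (by omega) (by omega)).2.2
    have e : (Hv (a + x, b + y) - Hv (a, b)) - (Hf (a + (x + 1), b + y) - Hv (a, b)) =
        Hv (a + x, b + y) - Hf (a + x + 1, b + y) := by rw [← add_assoc]; ring
    simp only [e, this]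
    exact X.inc_norm_le_one _
  · intro u h1 h2
    have hx : -(N : ℤ) ≤ 4 * u.1 ∧ 4 * u.1 ≤ N := by rcases abs_cases u.1 with h | h <;> omega
    have hy : -(N : ℤ) ≤ 4 * u.2 ∧ 4 * u.2 ≤ N := by rcases abs_cases u.2 with h | h <;> omega
    obtain ⟨p1, p2, -⟩ := prim_h hP (x := a + u.1) (y := b + u.2)
      (by omega) (by omega) (by omega) (by omega)
    have r := (hR (N / 2) (by omega) X hX (a + u.1) (b + u.2) (hrel u h1 h2)).1
    have e1 : ah (fun u => Hf (a + u.1, b + u.2) - Hv (a, b)) u = dh X (a + u.1) (b + u.2) := by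
      unfold ah
      simp only
      rw [← p1, ← add_assoc, ← add_assoc]
      ring
    have e2 : bh (fun u => Hv (a + u.1, b + u.2) - Hv (a, b)) u = ph X (a + u.1) (b + u.2) := by
      unfold bh
      simp only
      rw [← p2, ← add_assoc]
      ring
    rw [e1, e2]
    exact r.trans (add_le_add le_rfl hκ)
  · intro u h1 h2
    have hx : -(N : ℤ) ≤ 4 * u.1 ∧ 4 * u.1 ≤ N := by rcases abs_cases u.1 with h | h <;> omega
    have hy : -(N : ℤ) ≤ 4 * u.2 ∧ 4 * u.2 ≤ N := by rcases abs_cases u.2 with h | h <;> omega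
    obtain ⟨p1, p2⟩ := prim_v hP (x := a + u.1) (y := b + u.2)
      (by omega) (by omega) (by omega) (by omega)
    have r := (hR (N / 2) (by omega) X hX (a + u.1) (b + u.2) (hrel u h1 h2)).2
    have e1 : av (fun u => Hf (a + u.1, b + u.2) - Hv (a, b)) u = dv X (a + u.1) (b + u.2) := by
      unfold av
      simp only
      rw [← p1, ← add_assoc, ← add_assoc]
      ring
    have e2 : bv (fun u => Hv (a + u.1, b + u.2) - Hv (a, b)) u = pv X (a + u.1) (b + u.2) := by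
      unfold bv
      simp only
      rw [← p2, ← add_assoc]
      ring
    rw [e1, e2]
    exact r.trans (add_le_add le_rfl hκ)

/-- **The relative relations and the a priori bound give N1.** -/
theorem N1_of_relD {K : Env → Prop} (hAP : AP K) (hR : RelD K) : N1 K := by
  obtain ⟨C, hC, hAP⟩ := hAP
  intro ε hε
  obtain ⟨ρ0, hρ0, h⟩ := abs_N1 hC hε
  refine ⟨ρ0, hρ0, fun ρ1 hρ1 => ?_⟩
  obtain ⟨ε', hε', N0, h⟩ := h ρ1 hρ1
  obtain ⟨N1, hN1⟩ := hR ε' hε'
  refine ⟨max N0 (2 * N1 + 64), fun N n hN h1 h2 X hX a b hB Hv Hf hP => ?_⟩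
  have hD := dat_of_env hAP hN1 hX ((le_max_right _ _).trans hN) hB hP
  have := h N n ((le_max_left _ _).trans hN) h1 h2 _ _ hD
  simpa [sub_eq_add_neg] using this

end Pool.Agent.H79.ZF
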