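import Mathlib
import Pool.Agent.H79.ZF.Rel

set_option autoImplicit false

open Complex

/-! # From the rotation relation of the corner increments to the Cauchy-Riemann relation of the tile -/

namespace Pool.Agent.H79.ZF

open Pool.Agent.Q1 Pool.Agent.H75.Perc Pool.Agent.H75.TwoArm

lemma one_le_norm_sub : 1 ≤ ‖(1 - I : ℂ)‖ := by
  have := Complex.abs_re_le_norm (1 - I : ℂ)
  simpa using this

/-- the tile lemma -/
lemma tile_rl {i0 i1 i2 i3 : ℂ} {ε κ : ℝ} (hc : i0 + i2 = i1 + i3)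
    (h1 : ‖i1 - I * i0‖ ≤ ε * ‖i0‖ + κ) (h3 : ‖i3 - I * i2‖ ≤ ε * ‖i2‖ + κ) (hε0 : 0 ≤ ε)
    (hε : ε ≤ 1 / 8) (hκ : 0 ≤ κ) : Rl (8 * ε) (16 * κ) (i0 - i1) (i3 - i0) := by
  set e1 := i1 - I * i0 with he1
  set e3 := i3 - I * i2 with he3
  set s := i0 + i2 with hs
  set a := ‖i0‖ with ha
  set b := ‖i2‖ with hb
  have ha0 : 0 ≤ a := norm_nonneg _
  have n1 := one_le_norm_sub
  have es : (1 - I) * s = e1 + e3 := by
    have : e1 + e3 = (i1 + i3) - I * (i0 + i2) := by rw [he1, he3]; ring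
    rw [this, ← hc, hs]; ring
  have hs1 : ‖s‖ ≤ ‖e1‖ + ‖e3‖ := by
    calc ‖s‖ ≤ ‖(1 - I : ℂ)‖ * ‖s‖ := le_mul_of_one_le_left (norm_nonneg _) n1
      _ = ‖e1 + e3‖ := by rw [← norm_mul, es]
      _ ≤ _ := norm_add_le _ _
  have hb1 : b ≤ a + ‖s‖ := by
    have : i2 = s - i0 := by rw [hs]; ring
    calc b = ‖s - i0‖ := by rw [hb, ← this]
      _ ≤ ‖s‖ + ‖i0‖ := norm_sub_le _ _
      _ = _ := by ring
  set E := ‖e1‖ + ‖e3‖ with hE
  have hE0 : 0 ≤ E := by positivity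
  have hE1 : E ≤ 3 * (ε * a) + 3 * κ := by
    have h4 : E ≤ ε * (a + b) + 2 * κ := by
      have : ε * (a + b) = ε * a + ε * b := by ring
      linarith
    have h5 : ε * (a + b) ≤ ε * (2 * a + E) := mul_le_mul_of_nonneg_left (by linarith) hε0
    have h6 : ε * E ≤ 1 / 8 * E := mul_le_mul_of_nonneg_right hε hE0
    have h7 : 0 ≤ ε * a := by positivity
    nlinarith
  have d1 : (i0 - i1) - I * (i3 - i0) = s - e1 - I * e3 := by
    have : i1 = e1 + I * i0 := by rw [he1]; ring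
    have h2 : i3 = e3 + I * i2 := by rw [he3]; ring
    have h4 : i2 = s - i0 := by rw [hs]; ring
    rw [this, h2, h4]
    ring_nf
    rw [Complex.I_sq]
    ring
  have d2 : (i0 - i1) + I * (i3 - i0) = 2 * ((1 - I) * i0) - (e1 + s - I * e3) := by
    have : i1 = e1 + I * i0 := by rw [he1]; ring
    have h2 : i3 = e3 + I * i2 := by rw [he3]; ring
    have h4 : i2 = s - i0 := by rw [hs]; ring
    rw [this, h2, h4]
    ring_nf
    rw [Complex.I_sq]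
    ring
  have nI : ∀ x : ℂ, ‖I * x‖ = ‖x‖ := fun x => by rw [norm_mul, Complex.norm_I, one_mul]
  have m1 : ‖(i0 - i1) - I * (i3 - i0)‖ ≤ 2 * E := by
    rw [d1]
    calc _ ≤ ‖s - e1‖ + ‖I * e3‖ := norm_sub_le _ _
      _ ≤ (‖s‖ + ‖e1‖) + ‖e3‖ := by rw [nI]; gcongr; exact norm_sub_le _ _
      _ ≤ _ := by linarith
  have m2 : 2 * a - 2 * E ≤ ‖(i0 - i1) + I * (i3 - i0)‖ := by
    rw [d2]
    have h4 : ‖e1 + s - I * e3‖ ≤ 2 * E := by
      calc _ ≤ ‖e1 + s‖ + ‖I * e3‖ := norm_sub_le _ _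
        _ ≤ (‖e1‖ + ‖s‖) + ‖e3‖ := by rw [nI]; gcongr; exact norm_add_le _ _
        _ ≤ _ := by linarith
    have h5 : 2 * a ≤ ‖2 * ((1 - I) * i0)‖ := by
      rw [norm_mul, norm_mul, Complex.norm_ofNat]
      have : a ≤ ‖(1 - I : ℂ)‖ * ‖i0‖ := le_mul_of_one_le_left ha0 n1
      linarith
    have h6 := norm_sub_norm_le (2 * ((1 - I) * i0)) (e1 + s - I * e3)
    linarith
  unfold Rl
  set D := ‖(i0 - i1) + I * (i3 - i0)‖ with hD
  have h7 : ε * a ≤ 1 / 8 * a := mul_le_mul_of_nonneg_right hε ha0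
  have h8 : a ≤ D + 6 * κ := by linarith
  have h9 : ε * a ≤ ε * (D + 6 * κ) := mul_le_mul_of_nonneg_left h8 hε0
  have h10 : ε * κ ≤ 1 / 8 * κ := mul_le_mul_of_nonneg_right hε hκ
  have h11 : 0 ≤ ε * D := mul_nonneg hε0 (norm_nonneg _)
  nlinarith

/-- **Rotation relation of the corners => relation of the tiles.** -/
theorem relD_of {K : Env → Prop} (h : ∀ ε : ℝ, 0 < ε → ∃ N0 : ℕ, ∀ N : ℕ, N0 ≤ N →
    ∀ X, K X → ∀ c, Bx ((vx c).1 - N) ((vx c).1 + N) ((vx c).2 - N) ((vx c).2 + N) ⊆ X.E →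
    ‖X.inc (nxC c) - I * X.inc c‖ ≤ ε * ‖X.inc c‖ + (N : ℝ)⁻¹ ^ 9) : RelD K := by
  intro ε hε
  set ε' : ℝ := min (1 / 8) (ε / 8) with hε'
  have hε'0 : 0 < ε' := lt_min (by norm_num) (by positivity)
  obtain ⟨N0, h⟩ := h ε' hε'0
  refine ⟨max (N0 + 1) 8, fun N hN X hX a b hB => ?_⟩
  have hN1 : N0 ≤ N - 1 := by have := (le_max_left _ _).trans hN; omega
  have hN8 : 8 ≤ N := (le_max_right _ _).trans hN
  set κ : ℝ := (((N - 1 : ℕ) : ℝ))⁻¹ ^ 9 with hκ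
  have hκ0 : 0 ≤ κ := by positivity
  have hκ1 : 16 * κ ≤ 1 / (N : ℝ) ^ 3 := by
    have h1 : N ≤ 2 * (N - 1) := by omega
    have h2 : (N : ℝ) ≤ 2 * ((N - 1 : ℕ) : ℝ) := by exact_mod_cast h1
    have h3 : (7 : ℝ) ≤ ((N - 1 : ℕ) : ℝ) := by
      have : 7 ≤ N - 1 := by omega
      exact_mod_cast this
    have h4 : (0 : ℝ) < N := by exact_mod_cast (show 0 < N by omega)
    set m := ((N - 1 : ℕ) : ℝ)
    have hm : 0 < m := by linarith
    rw [hκ, le_div_iff₀ (by positivity), inv_pow, mul_assoc, inv_mul_eq_div, ← mul_div_assoc,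
      div_le_one (by positivity)]
    have h5 : (N : ℝ) ^ 3 ≤ (2 * m) ^ 3 := pow_le_pow_left₀ h4.le h2 3
    have h6 : (7 : ℝ) ^ 6 ≤ m ^ 6 := pow_le_pow_left₀ (by norm_num) h3 6
    calc 16 * (N : ℝ) ^ 3 ≤ 16 * (2 * m) ^ 3 := by linarith
      _ = 128 * m ^ 3 := by ring
      _ ≤ m ^ 6 * m ^ 3 := by
          apply mul_le_mul_of_nonneg_right _ (by positivity)
          linarith
      _ = m ^ 9 := by ring
  have hcast : ((N - 1 : ℕ) : ℤ) = N - 1 := by omega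
  have fin : ∀ {i0 i1 i2 i3 : ℂ}, i0 + i2 = i1 + i3 → ‖i1 - I * i0‖ ≤ ε' * ‖i0‖ + κ →
      ‖i3 - I * i2‖ ≤ ε' * ‖i2‖ + κ → Rl ε (1 / (N : ℝ) ^ 3) (i0 - i1) (i3 - i0) := by
    intro i0 i1 i2 i3 hc h1 h3
    have := tile_rl hc h1 h3 hε'0.le (min_le_left _ _) hκ0
    refine this.trans (add_le_add (mul_le_mul_of_nonneg_right ?_ (norm_nonneg _)) hκ1)
    have := min_le_right (1 / 8) (ε / 8)
    rw [← hε'] at this
    linarith
  have box : ∀ c : ℤ × ℤ, a ≤ (vx c).1 → (vx c).1 ≤ a + 1 → b ≤ (vx c).2 → (vx c).2 ≤ b + 1 →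
      ‖X.inc (nxC c) - I * X.inc c‖ ≤ ε' * ‖X.inc c‖ + κ := by
    intro c h1 h2 h3 h4
    refine h (N - 1) hN1 X hX c ((Bx_sub ?_ ?_ ?_ ?_).trans hB)
    all_goals rw [hcast]; omega
  constructor
  · obtain ⟨e1, e2, e3, e4⟩ := corners_h a b
    have hcl := X.closed (e := (2 * a + 1, 2 * b)) (hB (by rw [mem_Bx]; simp only; omega))
    rw [e1, e2, e3, e4] at hcl
    have v1 : vx (2 * a + 1, 2 * b) = (a, b) := by unfold vx; ext <;> simp only <;> omega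
    have v2 : vx (2 * a + 2, 2 * b + 1) = (a + 1, b) := by unfold vx; ext <;> simp only <;> omega
    have k1 := box (2 * a + 1, 2 * b) (by rw [v1]) (by rw [v1]; simp) (by rw [v1]) (by rw [v1]; simp)
    have k2 := box (2 * a + 2, 2 * b + 1) (by rw [v2]; simp) (by rw [v2]) (by rw [v2])
      (by rw [v2]; simp)
    rw [e3] at k1
    rw [e4] at k2
    exact fin hcl k1 k2
  · obtain ⟨e1, e2, e3, e4⟩ := corners_v a b
    have hcl := X.closed (e := (2 * a, 2 * b + 1)) (hB (by rw [mem_Bx]; simp only; omega))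
    rw [e1, e2, e3, e4] at hcl
    have v1 : vx (2 * a, 2 * b + 2) = (a, b + 1) := by unfold vx; ext <;> simp only <;> omega
    have v2 : vx (2 * a + 1, 2 * b + 1) = (a, b) := by unfold vx; ext <;> simp only <;> omega
    have k1 := box (2 * a, 2 * b + 2) (by rw [v1]) (by rw [v1]; simp) (by rw [v1]; simp)
      (by rw [v1])
    have k2 := box (2 * a + 1, 2 * b + 1) (by rw [v2]) (by rw [v2]; simp) (by rw [v2])
      (by rw [v2]; simp)
    rw [e3] at k1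
    rw [e4] at k2
    have hc' : X.inc (2 * a + 1, 2 * b + 1) + X.inc (2 * a, 2 * b + 2) =
        X.inc (2 * a, 2 * b + 1) + X.inc (2 * a + 1, 2 * b + 2) := by
      rw [add_comm, hcl, add_comm]
    have := fin hc' k2 k1
    have e : X.inc (2 * a + 1, 2 * b + 2) - X.inc (2 * a + 1, 2 * b + 1) =
        X.inc (2 * a, 2 * b + 2) - X.inc (2 * a, 2 * b + 1) := by
      rw [sub_eq_sub_iff_add_eq_add, hcl.symm.trans (by rw [add_comm])]
      ring
    rw [e] at this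
    exact this

end Pool.Agent.H79.ZF
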