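import Mathlib
import Pool.Agent.H79.ZF.Tile
import Pool.Agent.H53.ZF.Def
import Pool.Agent.Q1.M6c.APMain
import Pool.Agent.Q1.M6c.StAOf

set_option autoImplicit false

/-! # (c3): relative N1 gives the holomorphy of the limits -/

namespace Pool.Agent.H79.ZF

open Pool.Agent.Q1 Pool.Agent.Q1.M6c

theorem relD_of_relN1 {K : Env → Prop} (h : Pool.Agent.H53.ZF.RelN1 K) : RelD K :=
  relD_of h

theorem N1_of_relN1 {K : Env → Prop} (hAP : AP K) (h : Pool.Agent.H53.ZF.RelN1 K) : N1 K :=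
  N1_of_relD hAP (relD_of_relN1 h)

/-- **(c3)** -/
theorem c3_done : Pool.Agent.H53.ZF.C3 := fun h => holDob_of_N1 (N1_of_relN1 ap_planeK h)

end Pool.Agent.H79.ZF
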